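import Pool.Agent.W602.GT.Dich

/-! Fields of transcendence degree at most one. -/

set_option autoImplicit false

open IntermediateField

namespace Pool.Agent.L7h90.FW

theorem gen_top {Ω : Type} [Field Ω] [Algebra ℂ Ω] (τ : Ω) :
    IntermediateField.adjoin ℂ ({AdjoinSimple.gen ℂ τ} : Set ℂ⟮τ⟯) = ⊤ := by
  apply IntermediateField.map_injective ℂ⟮τ⟯.val
  rw [adjoin_map, Set.image_singleton]
  have h1 : (⊤ : IntermediateField ℂ ℂ⟮τ⟯).map ℂ⟮τ⟯.val = ℂ⟮τ⟯ := by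
    rw [← AlgHom.fieldRange_eq_map, fieldRange_val]
  rw [h1]
  rfl

theorem trdeg_simple {Ω : Type} [Field Ω] [Algebra ℂ Ω] (τ : Ω) : Algebra.trdeg ℂ ℂ⟮τ⟯ ≤ 1 := by
  have h1 : Algebra.IsAlgebraic (IntermediateField.adjoin ℂ ({AdjoinSimple.gen ℂ τ} : Set ℂ⟮τ⟯))
      ℂ⟮τ⟯ := by
    rw [gen_top]
    infer_instance
  have h2 := Pool.Agent.W602.GT.alg_adjoin h1
  have h3 := Algebra.IsAlgebraic.trdeg_le_cardinalMk (R := ℂ) (A := ℂ⟮τ⟯)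
    {AdjoinSimple.gen ℂ τ}
  simpa using h3

theorem trdeg_le_one {Ω E : Type} [Field Ω] [Algebra ℂ Ω] [Field E] [Algebra ℂ E] (τ : Ω)
    (j : E →ₐ[ℂ] Ω) (h : ∀ e, IsAlgebraic ℂ⟮τ⟯ (j e)) : Algebra.trdeg ℂ E ≤ 1 := by
  let A : IntermediateField ℂ⟮τ⟯ Ω := algebraicClosure ℂ⟮τ⟯ Ω
  have hA : ∀ e, j e ∈ (A.restrictScalars ℂ).toSubalgebra := fun e =>
    (mem_algebraicClosure_iff).2 (h e)
  let j' : E →ₐ[ℂ] (A.restrictScalars ℂ).toSubalgebra := j.codRestrict _ hA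
  have h1 : Algebra.trdeg ℂ E ≤ Algebra.trdeg ℂ (A.restrictScalars ℂ).toSubalgebra :=
    trdeg_le_of_injective j' j'.toRingHom.injective
  have h2 : Algebra.trdeg ℂ ℂ⟮τ⟯ + Algebra.trdeg ℂ⟮τ⟯ A = Algebra.trdeg ℂ A :=
    trdeg_add_eq ℂ ℂ⟮τ⟯ (A := A)
  have h3 : Algebra.trdeg ℂ⟮τ⟯ A = 0 := trdeg_eq_zero
  rw [h3, add_zero] at h2
  have h4 : Algebra.trdeg ℂ (A.restrictScalars ℂ).toSubalgebra = Algebra.trdeg ℂ A := rfl
  rw [h4, ← h2] at h1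
  exact h1.trans (trdeg_simple τ)

end Pool.Agent.L7h90.FW
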