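import Pool.Agent.L7h90.GL.Low
import Pool.Agent.L7h90.FW.Td
import Pool.Agent.Y221.FQ.Int

/-!
# Entire curves over a line

An entire curve in `X = {F = 0}` on which two forms of the same degree without common zeros on `X`
generate, over the constants, a field of transcendence degree one in the sense that the coordinates
are integral over them, is a curve of genus at most one.
-/

set_option autoImplicit false
set_option maxHeartbeats 400000
set_option linter.overlappingInstances false
set_option linter.unusedSectionVars false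

namespace Pool.Agent.L7h90.FW

open FF Filter IntermediateField
open Pool.Agent.W602.GT Metric Topology
open Pool.Agent.Y221.AP
open Pool.Agent.Y221.PD
open Pool.Agent.W603.LV (canDeg)
open Pool.Agent.Q103.SF (S_gpc vanOn van gt_of_canDeg exists_trdeg_of_gen exists_mk)

variable {M : ℕ}

/-- **Points over the field of the functions meromorphic near infinity, of transcendence degree one.** -/
theorem point_one (hG1 : S_gpc) {z : Fin (M + 1) → MK} {j k : Fin (M + 1)} (hk : z k ≠ 0)
    (hjk : ¬ MInf (z j / z k)) {Ω : Type} [Field Ω] [Algebra ℂ Ω] [Algebra MK Ω]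
    [IsScalarTower ℂ MK Ω] {τ : Ω}
    (halg : ∀ i l, z l ≠ 0 → IsAlgebraic ℂ⟮τ⟯ (algebraMap MK Ω (z i / z l))) :
    Transcendental ℂ τ ∧ ∃ (L : Type) (_ : Field L) (_ : Algebra ℂ L) (_ : IsFF ℂ L) (v : Fin (M + 1) → L),
      coords ℂ v = ⊤ ∧ canDeg ℂ L ≤ 0 ∧ ∀ G : MvPolynomial (Fin (M + 1)) ℂ, IsForm G →
        (val v G = 0 ↔ val z G = 0) := by
  classical
  let E := coords ℂ z
  have hmem : ∀ i, z i / z k ∈ E := fun i => subset_adjoin _ _ ⟨i, k, hk, rfl⟩
  let v : Fin (M + 1) → E := fun i => ⟨z i / z k, hmem i⟩
  have hvz : ∀ i, algebraMap E MK (v i) = z i / z k := fun i => rfl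
  have hvk : v k ≠ 0 := by
    intro h0
    have h1 := congrArg (algebraMap E MK) h0
    rw [hvz, map_zero, div_self hk] at h1
    exact one_ne_zero h1
  -- forms
  have hval : ∀ G : MvPolynomial (Fin (M + 1)) ℂ, IsForm G → (val v G = 0 ↔ val z G = 0) := by
    rintro G ⟨d, hd⟩
    have h1 : algebraMap E MK (val v G) = val (fun i => z i / z k) G := by
      unfold Pool.Agent.W602.GT.val
      rw [← MvPolynomial.aeval_algebraMap_apply]
      rfl
    have h2 : val z G = z k ^ d * val (fun i => z i / z k) G := by
      rw [← val_smul hd (z k)]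
      congr 1
      funext i
      field_simp
    rw [h2, mul_eq_zero, or_iff_right (pow_ne_zero _ hk), ← h1, map_eq_zero]
  -- the ratios generate
  have hvgen : coords ℂ v = ⊤ := by
    have h1 : (coords ℂ v).map (IntermediateField.val E) = (⊤ : IntermediateField ℂ E).map
        (IntermediateField.val E) := by
      have h2 : (⊤ : IntermediateField ℂ E).map (IntermediateField.val E) = E := by
        rw [← AlgHom.fieldRange_eq_map, IntermediateField.fieldRange_val]
      rw [h2]
      show (IntermediateField.adjoin ℂ _).map _ = coords ℂ z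
      rw [IntermediateField.adjoin_map]
      unfold coords
      congr 1
      ext u
      constructor
      · rintro ⟨_, ⟨a, b, hb, rfl⟩, rfl⟩
        have hzb : z b ≠ 0 := by
          intro h0
          apply hb
          apply (algebraMap E MK).injective
          rw [hvz, h0, zero_div, map_zero]
        refine ⟨a, b, hzb, ?_⟩
        show algebraMap E MK (v a / v b) = _
        rw [map_div₀, hvz, hvz]
        field_simp
      · rintro ⟨a, b, hb, rfl⟩
        refine ⟨v a / v b, ⟨a, b, ?_, rfl⟩, ?_⟩
        · intro h0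
          have h1 := congrArg (algebraMap E MK) h0
          rw [hvz, map_zero, div_eq_zero_iff] at h1
          exact h1.elim hb hk
        · show algebraMap E MK (v a / v b) = _
          rw [map_div₀, hvz, hvz]
          field_simp
    exact IntermediateField.map_injective _ h1
  -- all elements of `E` are algebraic over `ℂ(τ)`
  let jE : E →ₐ[ℂ] Ω := (IsScalarTower.toAlgHom ℂ MK Ω).comp E.val
  have hE : ∀ e : E, IsAlgebraic ℂ⟮τ⟯ (jE e) := by
    have h1 : E ≤ ((algebraicClosure ℂ⟮τ⟯ Ω).restrictScalars ℂ).comap
        (IsScalarTower.toAlgHom ℂ MK Ω) := by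
      show IntermediateField.adjoin ℂ _ ≤ _
      rw [IntermediateField.adjoin_le_iff]
      rintro _ ⟨a, b, hb, rfl⟩
      exact (mem_algebraicClosure_iff).2 (halg a b hb)
    intro e
    exact (mem_algebraicClosure_iff).1 (h1 e.2)
  obtain ⟨t, ht⟩ := exists_trdeg_of_gen hvgen
  have htle : t ≤ 1 := by
    have h1 := trdeg_le_one τ jE hE
    rw [ht] at h1
    exact_mod_cast h1
  have htne0 : t ≠ 0 := by
    intro h0
    rw [h0, Nat.cast_zero, trdeg_eq_zero_iff] at ht
    have hint : Algebra.IsIntegral ℂ E := Algebra.isAlgebraic_iff_isIntegral.1 ht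
    obtain ⟨c, hc⟩ := (IsAlgClosed.algebraMap_bijective_of_isIntegral (k := ℂ)
      (K := E)).2 (v j)
    apply hjk
    have h2 : z j / z k = algebraMap ℂ MK c := by
      rw [← hvz j, ← hc]
      rfl
    rw [h2]
    exact MI.algebraMap_mem c
  have ht1 : t = 1 := by omega
  subst ht1
  have hess : Algebra.EssFiniteType ℂ E := Pool.Agent.Q72.NA.ess_of_adjoin hvgen
  have hff : IsFF ℂ E := ⟨hess, by rw [ht]; simp⟩
  refine ⟨?_, E, inferInstance, inferInstance, hff, v, hvgen, ?_, hval⟩
  · intro hτ
    have h1 : Algebra.IsAlgebraic ℂ ℂ⟮τ⟯ :=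
      IntermediateField.isAlgebraic_adjoin_simple hτ.isIntegral
    have h2 : Algebra.IsAlgebraic ℂ E := by
      refine ⟨fun e => ?_⟩
      have h3 : IsAlgebraic ℂ (jE e) := (hE e).restrictScalars ℂ
      exact (isAlgebraic_algHom_iff jE jE.toRingHom.injective).1 h3
    have h4 := trdeg_eq_zero_iff.2 h2
    rw [ht] at h4
    simp at h4
  · by_contra hcon
    rw [not_le] at hcon
    have h1 := hG1 E (gt_of_canDeg hcon) (v j)
    rw [hvz] at h1
    exact hjk h1

end Pool.Agent.L7h90.FW
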