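import Pool.Agent.L7h90.FW.Crv

/-!
# The Zariski closure of an entire curve

The generic point of the Zariski closure of an entire curve; if the closure is a curve, it is the
image of an elliptic curve.
-/

set_option autoImplicit false
set_option maxHeartbeats 400000
set_option linter.overlappingInstances false
set_option linter.unusedSectionVars false

namespace Pool.Agent.L7h90.FW

open FF Filter IntermediateField
open Pool.Agent.W602.GT Metric Topology
open Pool.Agent.Y221.AP
open Pool.Agent.Y221.PD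
open Pool.Agent.Y221.FQ
open Pool.Agent.Y221.BD (EntireCurve)
open Pool.Agent.W603.BP (Extends sin_curve sin_point)
open Pool.Agent.W603.LV (canDeg)
open Pool.Agent.Q103.SF (S_gpc vanOn van gt_of_canDeg exists_trdeg_of_gen exists_mk)
open Pool.Agent.Q271.RC (Nonconst)
open Pool.Agent.Y190.OP
open Pool.Agent.L7h90.GL
open scoped LinearAlgebra.Projectivization

variable {M : ℕ} {ι : Type} {F : ι → MvPolynomial (Fin (M + 1)) ℂ}

/-- **Points over the field of the functions meromorphic near infinity.** -/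
theorem point_gen (hG1 : S_gpc) {z : Fin (M + 1) → MK} {j k : Fin (M + 1)} (hk : z k ≠ 0)
    (hjk : ¬ MInf (z j / z k)) :
    ∃ (L : Type) (_ : Field L) (_ : Algebra ℂ L) (v : Fin (M + 1) → L) (t : ℕ),
      v ≠ 0 ∧ coords ℂ v = ⊤ ∧ Algebra.trdeg ℂ L = t ∧ 1 ≤ t ∧
      (∀ G : MvPolynomial (Fin (M + 1)) ℂ, IsForm G → (val v G = 0 ↔ val z G = 0)) ∧
      (t = 1 → ∃ _ : IsFF ℂ L, canDeg ℂ L ≤ 0) := by
  classical
  let E := coords ℂ z
  have hmem : ∀ i, z i / z k ∈ E := fun i => subset_adjoin _ _ ⟨i, k, hk, rfl⟩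
  let v : Fin (M + 1) → E := fun i => ⟨z i / z k, hmem i⟩
  have hvz : ∀ i, algebraMap E MK (v i) = z i / z k := fun i => rfl
  have hvk : v k ≠ 0 := by
    intro h0
    have h1 := congrArg (algebraMap E MK) h0
    rw [hvz, map_zero, div_self hk] at h1
    exact one_ne_zero h1
  -- forms
  have hval : ∀ G : MvPolynomial (Fin (M + 1)) ℂ, IsForm G → (val v G = 0 ↔ val z G = 0) := by
    rintro G ⟨d, hd⟩
    have h1 : algebraMap E MK (val v G) = val (fun i => z i / z k) G := by
      unfold Pool.Agent.W602.GT.val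
      rw [← MvPolynomial.aeval_algebraMap_apply]
      rfl
    have h2 : val z G = z k ^ d * val (fun i => z i / z k) G := by
      rw [← val_smul hd (z k)]
      congr 1
      funext i
      field_simp
    rw [h2, mul_eq_zero, or_iff_right (pow_ne_zero _ hk), ← h1, map_eq_zero]
  -- the ratios generate
  have hvgen : coords ℂ v = ⊤ := by
    have h1 : (coords ℂ v).map (IntermediateField.val E) = (⊤ : IntermediateField ℂ E).map
        (IntermediateField.val E) := by
      have h2 : (⊤ : IntermediateField ℂ E).map (IntermediateField.val E) = E := by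
        rw [← AlgHom.fieldRange_eq_map, IntermediateField.fieldRange_val]
      rw [h2]
      show (IntermediateField.adjoin ℂ _).map _ = coords ℂ z
      rw [IntermediateField.adjoin_map]
      unfold coords
      congr 1
      ext u
      constructor
      · rintro ⟨_, ⟨a, b, hb, rfl⟩, rfl⟩
        have hzb : z b ≠ 0 := by
          intro h0
          apply hb
          apply (algebraMap E MK).injective
          rw [hvz, h0, zero_div, map_zero]
        refine ⟨a, b, hzb, ?_⟩
        show algebraMap E MK (v a / v b) = _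
        rw [map_div₀, hvz, hvz]
        field_simp
      · rintro ⟨a, b, hb, rfl⟩
        refine ⟨v a / v b, ⟨a, b, ?_, rfl⟩, ?_⟩
        · intro h0
          have h1 := congrArg (algebraMap E MK) h0
          rw [hvz, map_zero, div_eq_zero_iff] at h1
          exact h1.elim hb hk
        · show algebraMap E MK (v a / v b) = _
          rw [map_div₀, hvz, hvz]
          field_simp
    exact IntermediateField.map_injective _ h1
  obtain ⟨t, ht⟩ := exists_trdeg_of_gen hvgen
  have htne0 : t ≠ 0 := by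
    intro h0
    rw [h0, Nat.cast_zero, trdeg_eq_zero_iff] at ht
    have hint : Algebra.IsIntegral ℂ E := Algebra.isAlgebraic_iff_isIntegral.1 ht
    obtain ⟨c, hc⟩ := (IsAlgClosed.algebraMap_bijective_of_isIntegral (k := ℂ)
      (K := E)).2 (v j)
    apply hjk
    have h2 : z j / z k = algebraMap ℂ MK c := by
      rw [← hvz j, ← hc]
      rfl
    rw [h2]
    exact MI.algebraMap_mem c
  refine ⟨E, inferInstance, inferInstance, v, t, fun h => hvk (congrFun h k), hvgen, ht, by omega,
    hval, ?_⟩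
  rintro rfl
  have hess : Algebra.EssFiniteType ℂ E := Pool.Agent.Q72.NA.ess_of_adjoin hvgen
  have hff : IsFF ℂ E := ⟨hess, by rw [ht]; simp⟩
  refine ⟨hff, ?_⟩
  by_contra hcon
  rw [not_le] at hcon
  have h1 := hG1 E (gt_of_canDeg hcon) (v j)
  rw [hvz] at h1
  exact hjk h1

/-- **The Zariski closure of an entire curve.** -/
theorem closure_gen (hF : ∀ i, IsForm (F i)) {h : ℂ → ℙ ℂ (Fin (M + 1) → ℂ)}
    (hh : HolP Set.univ fun z => Phi (h z).rep) (hX : ∀ z, (h z).rep ∈ Cone F)
    (hne : ∃ z w, h z ≠ h w) :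
    ∃ (L : Type) (_ : Field L) (_ : Algebra ℂ L) (v : Fin (M + 1) → L) (t : ℕ),
      SubVar F L t v ∧ 1 ≤ t ∧
      (∀ G : MvPolynomial (Fin (M + 1)) ℂ, IsForm G → (val v G = 0 ↔ ∀ z, val (h z).rep G = 0)) ∧
      (t = 1 → EllipticClosure h) := by
  obtain ⟨f, hf, hf0, hfφ⟩ := zero_free hh
  have hc : ∀ z, ∃ c : ℂ, c ≠ 0 ∧ f z = c • (h z).rep := fun z =>
    Phi_inj (Projectivization.rep_nonzero _) (hf0 z) (hfφ z)
  have hev : ∀ (G : MvPolynomial (Fin (M + 1)) ℂ), IsForm G → ∀ z,
      (MvPolynomial.eval (fun i => f z i) G = 0 ↔ val (h z).rep G = 0) := by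
    rintro G ⟨d, hG⟩ z
    obtain ⟨c, hc0, hcf⟩ := hc z
    have h1 : MvPolynomial.eval (fun i => f z i) G = c ^ d * val (h z).rep G := by
      have h2 : (fun i => f z i) = fun i => c * (h z).rep i := by
        funext i
        rw [hcf]
        rfl
      have h3 : ∀ u : Fin (M + 1) → ℂ, MvPolynomial.eval u G = val u G := by
        intro u
        unfold Pool.Agent.W602.GT.val
        rw [MvPolynomial.aeval_eq_eval]
      rw [h3, h2, val_smul hG]
    rw [h1, mul_eq_zero, or_iff_right (pow_ne_zero _ hc0)]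
  -- the generic point of the projective space
  let K := FractionRing (MvPolynomial (Fin (M + 1)) ℂ)
  let x : Fin (M + 1) → K := fun i => algebraMap (MvPolynomial (Fin (M + 1)) ℂ) K (MvPolynomial.X i)
  have hx : ∀ G : MvPolynomial (Fin (M + 1)) ℂ, val x G = 0 → G = 0 := by
    intro G hG0
    have h1 : val x G = algebraMap (MvPolynomial (Fin (M + 1)) ℂ) K G := by
      unfold Pool.Agent.W602.GT.val
      have h2 := MvPolynomial.aeval_algebraMap_apply K
        (MvPolynomial.X : Fin (M + 1) → MvPolynomial (Fin (M + 1)) ℂ) G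
      rw [MvPolynomial.aeval_X_left_apply] at h2
      exact h2
    rw [h1] at hG0
    exact (IsFractionRing.injective (MvPolynomial (Fin (M + 1)) ℂ) K) (by rw [hG0, map_zero])
  have hE : EntireCurve x (fun i t => f t i) := by
    refine ⟨fun i => (differentiable_pi.1 hf) i, fun t => ?_, fun G hG hGx t => ?_, ?_⟩
    · obtain ⟨i, hi⟩ := Function.ne_iff.1 (hf0 t)
      exact ⟨i, hi⟩
    · rw [hx G hGx, map_zero]
    · by_contra hn
      push Not at hn
      obtain ⟨z, w, hzw⟩ := hne
      apply hzw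
      obtain ⟨c, hc0, hcf⟩ := hc z
      obtain ⟨e, he0, hef⟩ := hc w
      obtain ⟨i, hi⟩ := Function.ne_iff.1 (hf0 w)
      have hi' : f w i ≠ 0 := hi
      have h1 : f z = (f z i / f w i) • f w := by
        funext j
        rw [Pi.smul_apply, smul_eq_mul]
        have := hn i j z w
        field_simp
        linear_combination -this
      obtain ⟨a, ha⟩ : ∃ a : ℂ, f z = a • f w := ⟨_, h1⟩
      rw [← (h z).mk_rep, ← (h w).mk_rep, Projectivization.mk_eq_mk_iff']
      refine ⟨c⁻¹ * a * e, ?_⟩
      have h2 : (h z).rep = c⁻¹ • f z := by rw [hcf, smul_smul, inv_mul_cancel₀ hc0, one_smul]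
      rw [h2, ha, hef, smul_smul, smul_smul, mul_assoc]
  obtain ⟨z, hz, j, k, hk, hjk⟩ := exists_mk (disc_of_entire hE)
  have hzf : ∀ p : MvPolynomial (Fin (M + 1)) ℂ, val z p = 0 ↔
      ∀ s, MvPolynomial.eval (fun i => f s i) p = 0 := by
    intro p
    rw [hz p]
    constructor
    · intro h1 s
      obtain ⟨w, hw, hws⟩ := sin_point s
      have h3 := h1 w hw
      simp only [hws] at h3
      exact h3
    · intro h1 w _
      exact h1 _
  obtain ⟨L, i1, i2, v, t, hv0, hgen, ht, ht1, hvan, hdeg⟩ :=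
    point_gen Pool.Agent.Q285.SFG.t_gpc hk hjk
  have hiff : ∀ G : MvPolynomial (Fin (M + 1)) ℂ, IsForm G →
      (val v G = 0 ↔ ∀ z, val (h z).rep G = 0) := by
    intro G hG
    rw [hvan G hG, hzf]
    exact forall_congr' fun s => hev G hG s
  refine ⟨L, i1, i2, v, t, ⟨hv0, fun i => (hiff _ (hF i)).2 fun z => (hX z).2 i, hgen, ht⟩, ht1,
    hiff, fun h1 => ?_⟩
  obtain ⟨i3, hdeg⟩ := hdeg h1
  obtain ⟨E, j1, j2, j3, τ, hE'⟩ := exists_ell hdeg
  refine ⟨E, j1, j2, fun i => τ (v i), hE', ?_, fun G hG => ?_⟩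
  · obtain ⟨i, j, hj, ht⟩ := nonconst_of_trdeg hgen (by
      rw [IsFF.trdeg (k := ℂ) (K := L)]
      simp)
    refine ⟨i, j, (map_ne_zero τ).2 hj, ?_⟩
    rw [← map_div₀]
    intro halg
    exact ht ((isAlgebraic_algHom_iff τ τ.toRingHom.injective).1 halg)
  · have h2 : val (fun i => τ (v i)) G = τ (val v G) := by
      unfold Pool.Agent.W602.GT.val
      rw [MvPolynomial.comp_aeval_apply]
    rw [h2, map_eq_zero]
    exact hiff G hG

end Pool.Agent.L7h90.FW
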