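import Pool.Agent.L7h90.FW.Pd

/-!
# Linear equations for powers
-/

set_option autoImplicit false
set_option maxHeartbeats 400000

namespace Pool.Agent.L7h90.FW

open FF
open Pool.Agent.W602.GT
open Pool.Agent.Y221.FQ

variable {n q m e : ℕ} {ι : Type} {F : ι → MvPolynomial (Fin (n + 1)) ℂ}
  {G : Fin q → MvPolynomial (Fin (n + 1)) ℂ} {W : Submodule ℂ (Fin q → ℂ)}

theorem card_lt {k : ℕ} (h : ¬ Splits W k) {T : Finset (Fin q)} {cls : Fin q → Fin q}
    {c : Fin q → ℂ} (h1 : ∀ j ∈ T, cls j = j ∧ c j = 1)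
    (h2 : ∀ j ∈ T, (fun i => if cls i = j then c i ^ m else 0) ∈ W) : T.card < k := by
  by_contra hcon
  push Not at hcon
  apply h
  let s : Fin k → Fin q := fun a => T.orderEmbOfFin rfl (Fin.castLE hcon a)
  have hs : ∀ a, s a ∈ T := fun a => Finset.orderEmbOfFin_mem _ _ _
  have hinj : Function.Injective s := fun a b hab =>
    Fin.castLE_injective hcon ((T.orderEmbOfFin rfl).injective hab)
  refine ⟨fun a i => if cls i = s a then c i ^ m else 0, fun a => ⟨h2 _ (hs a), fun h0 => ?_⟩,
    fun a b hab i => ?_⟩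
  · have h3 := congrFun h0 (s a)
    simp only [(h1 _ (hs a)).1, (h1 _ (hs a)).2, if_true, one_pow, Pi.zero_apply] at h3
    exact one_ne_zero h3
  · by_cases hi : cls i = s a
    · right
      exact if_neg fun h4 => hab (hinj (hi.symm.trans h4))
    · left
      exact if_neg hi

/-- the linear equations of the powers hold at all points over extension fields -/
theorem rel_point (hGe : ∀ j, (G j).IsHomogeneous e) (hW : ∀ x ∈ Cone F, (fun i => val x (G i) ^ m) ∈ W)
    (hm1 : 1 ≤ m) (he : 1 ≤ e)
    {K : Type} [Field K] [Algebra ℂ K] {y : Fin (n + 1) → K} (hy : ∀ i, val y (F i) = 0)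
    (ψ : (Fin q → ℂ) →ₗ[ℂ] ℂ) (hψ : W ≤ LinearMap.ker ψ) :
    ∑ i, ψ (Pi.single i 1) • val y (G i) ^ m = 0 := by
  have h1 : (∑ i, MvPolynomial.C (ψ (Pi.single i 1)) * G i ^ m) ∈ IV F := by
    intro x hx
    have h2 : val x (∑ i, MvPolynomial.C (ψ (Pi.single i 1)) * G i ^ m) =
        ∑ i, ψ (Pi.single i 1) * val x (G i) ^ m := by
      unfold Pool.Agent.W602.GT.val
      rw [map_sum]
      refine Finset.sum_congr rfl fun i _ => ?_
      rw [map_mul, map_pow, MvPolynomial.aeval_C]
      rfl
    rw [h2]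
    by_cases hx0 : x = 0
    · refine Finset.sum_eq_zero fun i _ => ?_
      have h3 : val x (G i) = 0 := by
        have h4 := val_smul (hGe i) (0 : ℂ) x
        rw [zero_pow (by omega), zero_mul] at h4
        have h5 : (fun i => (0 : ℂ) * x i) = x := by
          rw [hx0]
          funext i
          exact zero_mul _
        rw [h5] at h4
        exact h4
      rw [h3, zero_pow (by omega), mul_zero]
    · have h3 := hψ (hW x ⟨hx0, hx⟩)
      rw [LinearMap.mem_ker, functional_eq] at h3
      exact h3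
  have h2 := val_IV hy h1
  unfold Pool.Agent.W602.GT.val at h2 ⊢
  rw [map_sum] at h2
  rw [← h2]
  refine Finset.sum_congr rfl fun i _ => ?_
  rw [map_mul, map_pow, MvPolynomial.aeval_C, Algebra.smul_def]

/-- **A criterion for power dependence.** -/
theorem dependent_of_space {K : Type} [Field K] [Algebra ℂ K] {y : Fin (n + 1) → K}
    (hGe : ∀ j, (G j).IsHomogeneous e) (hm1 : 1 ≤ m) (hm : Module.finrank ℂ W ^ 2 ≤ m)
    (hrel : ∀ ψ : (Fin q → ℂ) →ₗ[ℂ] ℂ, W ≤ LinearMap.ker ψ →
      ∑ i, ψ (Pi.single i 1) • val y (G i) ^ m = 0)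
    {k : ℕ} (hk : ¬ Splits W k) {S : Finset (Fin q)} (hS : k ≤ S.card)
    (hS1 : ∀ i ∈ S, val y (G i) ≠ 0)
    (hS2 : ∀ i ∈ S, ∀ j ∈ S, i ≠ j → ∀ a : ℂ, val y (G i) ≠ a • val y (G j)) :
    PowerDependent y := by
  classical
  by_contra hnot
  let P : Finset (Fin q) → Prop := fun T => (∀ i ∈ T, val y (G i) ≠ 0) ∧
    ∀ i ∈ T, ∀ j ∈ T, i ≠ j → ∀ a : ℂ, val y (G i) ≠ a • val y (G j)
  have hind : ∀ T : Finset (Fin q), P T → (T.card - 1) ^ 2 ≤ m → ∀ c : Fin q → ℂ,
      ∑ i ∈ T, c i • val y (G i) ^ m = 0 → ∀ i ∈ T, c i = 0 := by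
    intro T hT hTm c hc i hi
    by_contra hci
    apply hnot
    let s : Fin T.card ≃ T := (Finset.equivFin T).symm
    refine ⟨T.card, e, m, fun a => G (s a), fun a => c (s a), fun a => hGe _, hTm,
      fun a => hT.1 _ (s a).2, fun a b hab => hT.2 _ (s a).2 _ (s b).2 fun h =>
        hab (s.injective (Subtype.ext h)), fun h0 => ?_, ?_⟩
    · have h1 := congrFun h0 (s.symm ⟨i, hi⟩)
      simp only [Equiv.apply_symm_apply, Pi.zero_apply] at h1
      exact hci h1
    · rw [← hc, ← Finset.sum_coe_sort T]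
      exact Equiv.sum_comp s fun i : T => c i • val y (G i) ^ m
  obtain ⟨T, hT, hmax⟩ := Finset.exists_max_image (Finset.univ.filter P) Finset.card
    ⟨∅, by simp [P]⟩
  have hPT : P T := (Finset.mem_filter.1 hT).2
  have hkT : k ≤ T.card := hS.trans (hmax S (Finset.mem_filter.2 ⟨Finset.mem_univ _, hS1, hS2⟩))
  have hcard : T.card ≤ Module.finrank ℂ W := by
    by_contra hlt
    push Not at hlt
    obtain ⟨T', hT', hc'⟩ := Finset.exists_subset_card_eq
      (show Module.finrank ℂ W + 1 ≤ T.card by omega)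
    let ρ : (Fin q → ℂ) →ₗ[ℂ] (T' → ℂ) := LinearMap.funLeft ℂ ℂ (Subtype.val : T' → Fin q)
    have hlt' : W.map ρ < ⊤ := by
      rw [lt_top_iff_ne_top]
      intro htop
      have h1 := Submodule.finrank_map_le ρ W
      rw [htop, finrank_top, Module.finrank_fintype_fun_eq_card, Fintype.card_coe, hc'] at h1
      omega
    obtain ⟨φ, hφ0, hφ⟩ := Submodule.exists_le_ker_of_lt_top _ hlt'
    apply hφ0
    have h1 := hrel (φ.comp ρ) (fun x hx => by
      rw [LinearMap.mem_ker, LinearMap.comp_apply]
      exact hφ (Submodule.mem_map_of_mem hx))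
    have h2 : ∀ i : T', ρ (Pi.single (i : Fin q) 1) = Pi.single i 1 := by
      intro i
      funext j
      show (Pi.single (i : Fin q) (1 : ℂ) : Fin q → ℂ) j = (Pi.single i (1 : ℂ) : T' → ℂ) j
      rw [Pi.single_apply, Pi.single_apply]
      by_cases h : j = i
      · rw [if_pos h, if_pos (congrArg Subtype.val h)]
      · rw [if_neg h, if_neg fun h' => h (Subtype.ext h')]
    have h3 : ∀ i ∉ T', ρ (Pi.single i 1) = 0 := by
      intro i hi
      funext j
      show (Pi.single i (1 : ℂ) : Fin q → ℂ) j = 0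
      rw [Pi.single_apply, if_neg]
      rintro h
      exact hi (h ▸ j.2)
    have h4 : ∀ i ∈ T', (φ.comp ρ) (Pi.single i 1) = 0 := by
      refine hind T' ⟨fun i hi => hPT.1 i (hT' hi), fun i hi j hj => hPT.2 i (hT' hi) j (hT' hj)⟩
        (by rw [hc']; simpa using hm) (fun i => (φ.comp ρ) (Pi.single i 1)) ?_
      rw [← h1]
      refine Finset.sum_subset (Finset.subset_univ _) fun i _ hi => ?_
      rw [LinearMap.comp_apply, h3 i hi, map_zero, zero_smul]
    refine LinearMap.ext fun v => ?_
    rw [functional_eq, LinearMap.zero_apply]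
    refine Finset.sum_eq_zero fun i _ => ?_
    have h5 := h4 i i.2
    rw [LinearMap.comp_apply, h2] at h5
    rw [h5, zero_mul]
  have hcls : ∀ i, ∃ (j : Fin q) (c : ℂ), (j ∈ T ∨ c = 0) ∧ val y (G i) = c • val y (G j) ∧
      (i ∈ T → j = i ∧ c = 1) := by
    intro i
    by_cases hiT : i ∈ T
    · exact ⟨i, 1, Or.inl hiT, by rw [one_smul], fun _ => ⟨rfl, rfl⟩⟩
    by_cases hi : val y (G i) ≠ 0
    · have hnP : ¬ P (insert i T) := by
        intro hP
        have h1 := hmax (insert i T) (Finset.mem_filter.2 ⟨Finset.mem_univ _, hP⟩)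
        rw [Finset.card_insert_of_notMem hiT] at h1
        omega
      have h2 : ∃ j ∈ T, ∃ c : ℂ, val y (G i) = c • val y (G j) := by
        by_contra hno
        push Not at hno
        apply hnP
        refine ⟨fun k hk => ?_, fun k hk l hl hkl c => ?_⟩
        · rcases Finset.mem_insert.1 hk with hki | hk'
          · rw [hki]
            exact hi
          · exact hPT.1 k hk'
        · rcases Finset.mem_insert.1 hk with hki | hk'
          · rcases Finset.mem_insert.1 hl with hli | hl'
            · exact absurd (hki.trans hli.symm) hkl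
            · rw [hki]
              exact hno l hl' c
          · rcases Finset.mem_insert.1 hl with hli | hl'
            · rw [hli]
              intro hall
              have hc0 : c ≠ 0 := by
                intro h0
                rw [h0, zero_smul] at hall
                exact hPT.1 k hk' hall
              refine hno k hk' c⁻¹ ?_
              rw [hall, smul_smul, inv_mul_cancel₀ hc0, one_smul]
            · exact hPT.2 k hk' l hl' hkl c
      obtain ⟨j, hj, c, hc⟩ := h2
      exact ⟨j, c, Or.inl hj, hc, fun h => absurd h hiT⟩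
    · push Not at hi
      exact ⟨i, 0, Or.inr rfl, by rw [zero_smul, hi], fun h => absurd h hiT⟩
  choose cls c h1 h2 h3 using hcls
  have hmemW : ∀ j ∈ T, (fun i => if cls i = j then c i ^ m else 0) ∈ W := by
    intro j hj
    by_contra hno
    obtain ⟨ψ, hψ, hψW⟩ := Submodule.exists_le_ker_of_notMem hno
    apply hψ
    refine hind T hPT ?_ (fun j => ψ (fun i => if cls i = j then c i ^ m else 0)) ?_ j hj
    · exact le_trans (Nat.pow_le_pow_left (by omega) 2) hm
    · have h4 := hrel ψ hψW
      rw [← h4]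
      have h5 : ∀ j, ψ (fun i => if cls i = j then c i ^ m else 0) =
          ∑ i, ψ (Pi.single i 1) * (if cls i = j then c i ^ m else 0) := fun j => functional_eq ψ _
      simp only [h5, Finset.sum_smul]
      rw [Finset.sum_comm]
      refine Finset.sum_congr rfl fun i _ => ?_
      by_cases hi : cls i ∈ T
      · rw [Finset.sum_eq_single (cls i)]
        · rw [if_pos rfl, h2 i, smul_pow, smul_smul]
        · intro j _ hj
          rw [if_neg (fun h => hj h.symm), mul_zero, zero_smul]
        · exact fun h => absurd hi h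
      · rw [Finset.sum_eq_zero]
        · rw [h2 i, (h1 i).resolve_left hi, zero_smul, zero_pow (by omega), smul_zero]
        · intro j hj
          rw [if_neg (fun h : cls i = j => hi (by rw [h]; exact hj)), mul_zero, zero_smul]
  exact absurd (card_lt hk (fun j hj => h3 j hj) hmemW) (not_lt.2 hkT)

/-- **Varieties with a finite morphism to an intersection of Fermat type.** -/
theorem all_of_noBase (hF : ∀ i, IsForm (F i)) (he : 1 ≤ e) (hGe : ∀ j, (G j).IsHomogeneous e)
    (hG : ∀ x ∈ Cone F, ∃ i, val x (G i) ≠ 0) (hm1 : 1 ≤ m) (hm : Module.finrank ℂ W ^ 2 ≤ m)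
    (hW : ∀ x ∈ Cone F, (fun i => val x (G i) ^ m) ∈ W) {w : ℕ} (hk : ¬ Splits W (w + 1)) :
    AllDependent F w := by
  classical
  intro K _ _ d y hy hwd
  have h1 := rank_of_noBase hF he hGe hG w K d y hy hwd
  obtain ⟨κ, a, ha, hspan, hli⟩ := exists_linearIndependent' ℂ (fun i => val y (G i))
  have : Finite κ := Finite.of_injective a ha
  have : Fintype κ := Fintype.ofFinite κ
  have h2 : Module.finrank ℂ (Submodule.span ℂ (Set.range fun i => val y (G i))) = Fintype.card κ := by
    rw [← hspan]
    exact finrank_span_eq_card hli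
  refine dependent_of_space hGe hm1 hm (rel_point hGe hW hm1 he hy.mem) hk
    (S := Finset.univ.image a) ?_ ?_ ?_
  · rw [Finset.card_image_of_injective _ ha, Finset.card_univ, ← h2]
    exact h1
  · intro i hi
    obtain ⟨b, -, rfl⟩ := Finset.mem_image.1 hi
    exact hli.ne_zero b
  · intro i hi j hj hij t
    obtain ⟨b, -, rfl⟩ := Finset.mem_image.1 hi
    obtain ⟨b', -, rfl⟩ := Finset.mem_image.1 hj
    have hbb : b ≠ b' := fun h => hij (by rw [h])
    intro heq
    have h3 := Fintype.linearIndependent_iff.1 hli (Pi.single b 1 - Pi.single b' t) (by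
      simp only [Pi.sub_apply, sub_smul, Finset.sum_sub_distrib, Pi.single_apply, ite_smul,
        one_smul, zero_smul, Finset.sum_ite_eq', Finset.mem_univ, if_true]
      exact sub_eq_zero.2 heq) b
    simp [Pi.single_apply, hbb] at h3

end Pool.Agent.L7h90.FW
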