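import Pool.Agent.Y190.OP.Zf

/-!
# Roots of entire functions
-/

set_option autoImplicit false
set_option maxHeartbeats 400000

namespace Pool.Agent.L7h90.FW

open Filter Topology Set
open Pool.Agent.Y190.OP
open Pool.Agent.Y190.AN (weier order_nat)

/-- entire functions without zeros are powers -/
theorem root_unit {U : ℂ → ℂ} (hU : Differentiable ℂ U) (h0 : ∀ z, U z ≠ 0) {m : ℕ} (hm : 1 ≤ m) :
    ∃ g : ℂ → ℂ, Differentiable ℂ g ∧ ∀ z, U z = g z ^ m := by
  have hdU : Differentiable ℂ (deriv U) := (hU.contDiff (n := 2)).differentiable_deriv_two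
  obtain ⟨P, hP⟩ := (hdU.div hU h0).isExactOn_univ
  have hPd : ∀ z, HasDerivAt P (deriv U z / U z) z := fun z => hP z (mem_univ z)
  have hconst : ∀ z, U z * Complex.exp (-P z) = U 0 * Complex.exp (-P 0) := by
    intro z
    refine is_const_of_deriv_eq_zero (f := fun z => U z * Complex.exp (-P z)) (𝕜 := ℂ) ?_ ?_ z 0
    · exact fun z => (hU z).mul (hPd z).differentiableAt.neg.cexp
    · intro w
      have h1 := (hU w).hasDerivAt.mul ((hPd w).neg.cexp)
      have h3 : U w * (deriv U w / U w) = deriv U w := mul_div_cancel₀ _ (h0 w)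
      have h2 : HasDerivAt (fun z => U z * Complex.exp (-P z)) 0 w :=
        h1.congr_deriv (by linear_combination -(Complex.exp (-P w)) * h3)
      exact h2.deriv
  obtain ⟨c, hc⟩ := IsAlgClosed.exists_pow_nat_eq (U 0 * Complex.exp (-P 0)) (show 0 < m by omega)
  refine ⟨fun z => c * Complex.exp (P z / m), ?_, fun z => ?_⟩
  · exact fun z => ((hPd z).differentiableAt.div_const _).cexp.const_mul c
  · rw [mul_pow, hc, ← hconst z, ← Complex.exp_nat_mul]
    have hm0 : (m : ℂ) ≠ 0 := by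
      have : m ≠ 0 := by omega
      exact_mod_cast this
    rw [mul_div_cancel₀ _ hm0, mul_assoc, ← Complex.exp_add, neg_add_cancel, Complex.exp_zero,
      mul_one]

/-- **Roots.** -/
theorem root {H : ℂ → ℂ} (hH : Differentiable ℂ H) {m : ℕ} (hm : 1 ≤ m)
    (hord : ∀ z, ∃ a : ℕ, analyticOrderAt H z = ((m * a : ℕ) : ℕ∞)) :
    ∃ g : ℂ → ℂ, Differentiable ℂ g ∧ ∀ z, H z = g z ^ m := by
  choose a ha using hord
  obtain ⟨h, hhd, hho⟩ := weier a fun ρ => by
    refine (ord_finite hH ρ).subset ?_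
    rintro z ⟨h1, h2⟩
    refine ⟨h1, ?_⟩
    rw [order_nat hH ha]
    intro h3
    have h4 : ((m * a z : ℕ) : ℤ) = 0 := h3
    have h5 : m * a z = 0 := by exact_mod_cast h4
    rcases Nat.mul_eq_zero.1 h5 with h6 | h6
    · omega
    · exact h2 h6
  have hhM : ∀ z, MeromorphicAt h z := fun z => (hhd.analyticAt z).meromorphicAt
  have hHM : ∀ z, MeromorphicAt H z := fun z => (hH.analyticAt z).meromorphicAt
  have hq : MeromorphicOn (H / h ^ m) univ := fun z _ => (hHM z).div ((hhM z).pow m)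
  set U : ℂ → ℂ := toMeromorphicNFOn (H / h ^ m) univ with hU
  have hNF : MeromorphicNFOn U univ := meromorphicNFOn_toMeromorphicNFOn _ univ
  have hUord : ∀ z, meromorphicOrderAt U z = 0 := by
    intro z
    have h1 := meromorphicOrderAt_toMeromorphicNFOn hq (mem_univ z)
    rw [h1, meromorphicOrderAt_div (hHM z) ((hhM z).pow m), meromorphicOrderAt_pow (hhM z),
      order_nat hH ha, order_nat hhd hho]
    have e : ((m * a z : ℕ) : ℤ) = (m : ℤ) * (a z : ℤ) := by push_cast; ring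
    rw [e]
    norm_cast
    simp
  have hUa : ∀ z, AnalyticAt ℂ U z := fun z => by
    rw [← (hNF (mem_univ z)).meromorphicOrderAt_nonneg_iff_analyticAt, hUord z]
  have hU0 : ∀ z, U z ≠ 0 := fun z => by
    rw [← (hNF (mem_univ z)).meromorphicOrderAt_eq_zero_iff]
    exact hUord z
  have hUd : Differentiable ℂ U := fun z => (hUa z).differentiableAt
  obtain ⟨g, hg, hgU⟩ := root_unit hUd hU0 hm
  refine ⟨fun z => h z * g z, hhd.mul hg, fun z => ?_⟩
  have h1 : ∀ᶠ w in 𝓝[≠] z, H w = (h w * g w) ^ m := by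
    have h2 := hq.toMeromorphicNFOn_eq_self_on_nhdsNE (mem_univ z)
    have h3 : ∀ᶠ w in 𝓝[≠] z, h w ≠ 0 :=
      (meromorphicOrderAt_ne_top_iff_eventually_ne_zero (hhM z)).1 (by
        rw [order_nat hhd hho]; exact WithTop.coe_ne_top)
    filter_upwards [h2, h3] with w hw1 hw2
    have h4 : U w = H w / h w ^ m := hw1
    rw [mul_pow, ← hgU, h4, mul_div_cancel₀ _ (pow_ne_zero _ hw2)]
  have h2 : Tendsto H (𝓝[≠] z) (𝓝 (H z)) := (hH z).continuousAt.tendsto.mono_left nhdsWithin_le_nhds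
  have h3 : Tendsto (fun w => (h w * g w) ^ m) (𝓝[≠] z) (𝓝 ((h z * g z) ^ m)) :=
    (((hhd z).mul (hg z)).pow m).continuousAt.tendsto.mono_left nhdsWithin_le_nhds
  exact tendsto_nhds_unique (h2.congr' h1) h3

end Pool.Agent.L7h90.FW
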