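import Pool.Agent.L7h90.FW.Lin
import Pool.Agent.L7h90.FW.Root

/-!
# Varieties with linearly dependent forms of high multiplicities
-/

set_option autoImplicit false
set_option maxHeartbeats 400000

namespace Pool.Agent.L7h90.FW

open FF Filter LinearAlgebra.Projectivization
open Pool.Agent.W602.GT Metric Topology
open Pool.Agent.Y221.FQ
open Pool.Agent.Y190.OP
open Pool.Agent.N154.TB
open Pool.Agent.N154.GG (HolMap holP_of)
open Pool.Agent.L7h90.GL
open Pool.Agent.H159R3.NV (powers_independent)
open scoped LinearAlgebra.Projectivization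

variable {n : ℕ} {ι : Type} {F : ι → MvPolynomial (Fin (n + 1)) ℂ}

/-- Along every holomorphic arc `p` which is Zariski dense in the variety with the generic point `y`, the
form `H` vanishes to an order divisible by `m`. (For example, `H` is the `m`-th power of a form, or
the divisor of `H` on the normalisation of the variety is `m` times a Cartier divisor.) -/
def Divisible {K : Type} [Field K] [Algebra ℂ K] (y : Fin (n + 1) → K) (m : ℕ)
    (H : MvPolynomial (Fin (n + 1)) ℂ) : Prop :=
  ∀ (p : ℂ → Fin (n + 1) → ℂ) (t : ℂ), AnalyticAt ℂ p t → p t ≠ 0 →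
    (∀ P : MvPolynomial (Fin (n + 1)) ℂ, IsForm P →
      (val y P = 0 ↔ ∀ᶠ u in 𝓝 t, val (p u) P = 0)) →
    ∃ a : ℕ, analyticOrderAt (fun u => val (p u) H) t = ((m * a : ℕ) : ℕ∞)

/-- There are `s` forms of the same degree which are neither zero nor proportional to each other, but
linearly dependent on the variety with the generic point `y`, and which vanish along the Zariski dense
holomorphic arcs in the variety to orders divisible by `m` for some `m ≥ (s - 1)²`. -/
def Dependent {K : Type} [Field K] [Algebra ℂ K] (y : Fin (n + 1) → K) : Prop :=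
  ∃ (s e m : ℕ) (H : Fin s → MvPolynomial (Fin (n + 1)) ℂ) (c : Fin s → ℂ),
    (∀ i, (H i).IsHomogeneous e) ∧ 1 ≤ m ∧ (s - 1) ^ 2 ≤ m ∧
    (∀ i, val y (H i) ≠ 0 ∧ Divisible y m (H i)) ∧
    (∀ i j, i ≠ j → ∀ a : ℂ, val y (H i) ≠ a • val y (H j)) ∧ c ≠ 0 ∧
    ∑ i, c i • val y (H i) = 0

/-- All closed subvarieties `Z` of `X = {F = 0}` of dimension at least `w` satisfy the condition
`Dependent`. -/
def AllDep (F : ι → MvPolynomial (Fin (n + 1)) ℂ) (w : ℕ) : Prop :=
  ∀ (K : Type) [Field K] [Algebra ℂ K] (d : ℕ) (y : Fin (n + 1) → K), SubVar F K d y → w ≤ d →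
    Dependent y

theorem val_analytic {p : ℂ → Fin (n + 1) → ℂ} {t : ℂ} (hp : AnalyticAt ℂ p t)
    (P : MvPolynomial (Fin (n + 1)) ℂ) : AnalyticAt ℂ (fun z => val (p z) P) t := by
  induction P using MvPolynomial.induction_on with
  | C a =>
    have : (fun z => val (p z) (MvPolynomial.C a : MvPolynomial (Fin (n + 1)) ℂ)) = fun _ => a := by
      funext z
      unfold Pool.Agent.W602.GT.val
      rw [MvPolynomial.aeval_C]
      rfl
    rw [this]
    exact analyticAt_const
  | add P Q hP hQ =>
    have : (fun z => val (p z) (P + Q)) = fun z => val (p z) P + val (p z) Q := by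
      funext z
      unfold Pool.Agent.W602.GT.val
      rw [map_add]
    rw [this]
    exact hP.add hQ
  | mul_X P i hP =>
    have : (fun z => val (p z) (P * MvPolynomial.X i)) = fun z => val (p z) P * p z i := by
      funext z
      unfold Pool.Agent.W602.GT.val
      rw [map_mul, MvPolynomial.aeval_X]
    rw [this]
    exact hP.mul ((analyticAt_pi_iff.1 hp) i)

/-- powers of forms vanish to divisible orders -/
theorem divisible_pow {K : Type} [Field K] [Algebra ℂ K] {y : Fin (n + 1) → K} (m : ℕ)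
    {G : MvPolynomial (Fin (n + 1)) ℂ} (hG : IsForm G) (hG0 : val y G ≠ 0) :
    Divisible y m (G ^ m) := by
  intro p t hp _ hd
  have h1 : (fun u => val (p u) (G ^ m)) = (fun u => val (p u) G) ^ m := by
    funext u
    unfold Pool.Agent.W602.GT.val
    rw [map_pow]
    rfl
  have hA := val_analytic hp G
  have htop : analyticOrderAt (fun u => val (p u) G) t ≠ ⊤ := by
    intro htop
    rw [analyticOrderAt_eq_top] at htop
    exact hG0 ((hd G hG).2 htop)
  obtain ⟨a, ha⟩ := ENat.ne_top_iff_exists.1 htop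
  refine ⟨a, ?_⟩
  rw [h1, analyticOrderAt_pow hA, ← ha]
  push_cast
  simp

theorem dependent_of_pow {K : Type} [Field K] [Algebra ℂ K] {y : Fin (n + 1) → K}
    (h : PowerDependent y) : Dependent y := by
  obtain ⟨s, e, m, G, c, hGe, hm, hne, hprop, hc0, hsum⟩ := h
  have hs : 2 ≤ s := by
    by_contra hlt
    push Not at hlt
    have h01 : s = 0 ∨ s = 1 := by omega
    rcases h01 with rfl | rfl
    · exact hc0 (funext fun i => i.elim0)
    · apply hc0
      funext i
      rw [Fin.sum_univ_one, smul_eq_zero] at hsum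
      obtain rfl : i = 0 := Fin.eq_zero i
      exact hsum.resolve_right (pow_ne_zero _ (hne 0))
  have hm1 : 1 ≤ m := by
    have : 1 ≤ (s - 1) ^ 2 := Nat.one_le_pow _ _ (by omega)
    omega
  have hval : ∀ i, val y (G i ^ m) = val y (G i) ^ m := fun i => by
    unfold Pool.Agent.W602.GT.val
    rw [map_pow]
  refine ⟨s, e * m, m, fun i => G i ^ m, c, fun i => (hGe i).pow m, hm1, hm,
    fun i => ⟨?_, divisible_pow _ ⟨e, hGe i⟩ (hne i)⟩, fun i j hij a => ?_, hc0, ?_⟩
  · rw [hval]
    exact pow_ne_zero _ (hne i)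
  · rw [hval, hval]
    intro heq
    obtain ⟨b, hb⟩ := IsAlgClosed.exists_pow_nat_eq a (show 0 < m by omega)
    have h1 : (val y (G i) / (b • val y (G j))) ^ m = 1 ∨ b = 0 := by
      by_cases hb0 : b = 0
      · exact Or.inr hb0
      · left
        have h2 : (b • val y (G j)) ^ m = val y (G i) ^ m := by
          rw [smul_pow, hb, heq]
        rw [div_pow, h2, div_self (pow_ne_zero _ (hne i))]
    rcases h1 with h1 | h1
    · obtain ⟨r, hr⟩ : ∃ r : ℂ, algebraMap ℂ K r = val y (G i) / (b • val y (G j)) := by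
        have hint : IsIntegral ℂ (val y (G i) / (b • val y (G j))) :=
          IsIntegral.of_pow (show 0 < m by omega) (by rw [h1]; exact isIntegral_one)
        have hsplit := IsAlgClosed.splits (minpoly ℂ (val y (G i) / (b • val y (G j))))
        exact (minpoly.mem_range_of_degree_eq_one ℂ _
          (IsAlgClosed.degree_eq_one_of_irreducible ℂ (minpoly.irreducible hint)))
      have hb0 : b ≠ 0 := by
        rintro rfl
        rw [zero_smul, div_zero, zero_pow (by omega)] at h1
        exact zero_ne_one h1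
      apply hprop i j hij (r * b)
      have h3 : b • val y (G j) ≠ 0 := smul_ne_zero hb0 (hne j)
      rw [eq_div_iff h3] at hr
      rw [← hr, mul_smul, Algebra.smul_def r]
    · rw [h1, zero_pow (by omega)] at hb
      rw [← hb, zero_smul] at heq
      exact pow_ne_zero _ (hne i) heq
  · simp only [hval]
    exact hsum

theorem AllDependent.allDep {w : ℕ} (h : AllDependent F w) : AllDep F w :=
  fun K _ _ d y hy hw => dependent_of_pow (h K d y hy hw)

/-- **The Zariski closure of an entire curve does not satisfy `Dependent`.** -/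
theorem not_dep {f : ℂ → ℙ ℂ (Fin (n + 1) → ℂ)} {X : Set (Fin (n + 1) → ℂ)}
    (hf : CurveIn X f) {L : Type} [Field L] [Algebra ℂ L] {v : Fin (n + 1) → L}
    (hv : ∀ P : MvPolynomial (Fin (n + 1)) ℂ, IsForm P → (val v P = 0 ↔ ∀ z, val (f z).rep P = 0)) :
    ¬ Dependent v := by
  rintro ⟨s, e, m, G, c, hGe, hm1, hm, hne, hprop, hc0, hsum⟩
  obtain ⟨φ, hφ, hφ0, hφc⟩ := lift_curve hf
  have hiff : ∀ P : MvPolynomial (Fin (n + 1)) ℂ, IsForm P →
      (val v P = 0 ↔ ∀ z, val (φ z) P = 0) := by
    intro P hP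
    rw [hv P hP]
    obtain ⟨d, hd⟩ := hP
    refine forall_congr' fun z => ?_
    obtain ⟨a, ha, haz⟩ := hφc z
    have h1 : val (φ z) P = a ^ d * val (f z).rep P := by
      rw [← val_smul hd a, haz]
      rfl
    rw [h1, mul_eq_zero, or_iff_right (pow_ne_zero _ ha)]
  have hnz : ∀ i, ∃ z, val (φ z) (G i) ≠ 0 := by
    intro i
    by_contra hcon
    push Not at hcon
    exact (hne i).1 ((hiff _ ⟨e, hGe i⟩).2 hcon)
  -- the roots
  have hroot : ∀ i, ∃ g : ℂ → ℂ, Differentiable ℂ g ∧ ∀ z, val (φ z) (G i) = g z ^ m := by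
    intro i
    refine root (val_diff hφ (G i)) hm1 fun z => ?_
    refine (hne i).2 φ z (hφ.analyticAt z) (hφ0 z) (fun P hP => (hiff P hP).trans
      ⟨fun h => Eventually.of_forall h, fun h u => ?_⟩)
    · have hA : AnalyticOnNhd ℂ (fun z => val (φ z) P) Set.univ := fun z _ =>
        (val_diff hφ P).analyticAt z
      exact hA.eqOn_zero_of_preconnected_of_eventuallyEq_zero isPreconnected_univ
        (Set.mem_univ z) h (Set.mem_univ u)
  choose g hg hgH using hroot
  apply hc0
  funext i
  refine powers_independent (s := s) (N := m) hm g hg Finset.univ (by simp) (fun i _ => ?_)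
    (fun i _ j _ hij a => ?_) c (fun z => ?_) i (Finset.mem_univ i)
  · obtain ⟨z, hz⟩ := hnz i
    refine ⟨z, fun h0 => hz ?_⟩
    rw [hgH, h0, zero_pow (by omega)]
  · by_contra hcon
    push Not at hcon
    apply hprop i j hij (a ^ m)
    have h1 : IsForm (G i - MvPolynomial.C (a ^ m) * G j) :=
      ⟨e, (hGe i).sub (by simpa using (MvPolynomial.isHomogeneous_C _ (a ^ m)).mul (hGe j))⟩
    have h2 := (hiff _ h1).2 (fun z => by
      have h9 := hcon z
      have h10 := hgH i z
      have h11 := hgH j z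
      unfold Pool.Agent.W602.GT.val at h10 h11 ⊢
      rw [map_sub, map_mul, MvPolynomial.aeval_C, h10, h11, sub_eq_zero.1 h9, mul_pow]
      exact sub_self _)
    unfold Pool.Agent.W602.GT.val at h2 ⊢
    rw [map_sub, map_mul, MvPolynomial.aeval_C, sub_eq_zero] at h2
    rw [h2, Algebra.smul_def]
  · have h1 : IsForm (∑ i, MvPolynomial.C (c i) * G i) := by
      refine ⟨e, MvPolynomial.IsHomogeneous.sum _ _ _ fun i _ => ?_⟩
      simpa using (MvPolynomial.isHomogeneous_C _ (c i)).mul (hGe i)
    have h2 := (hiff _ h1).1 (by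
      unfold Pool.Agent.W602.GT.val at hsum ⊢
      rw [map_sum, ← hsum]
      refine Finset.sum_congr rfl fun i _ => ?_
      rw [map_mul, MvPolynomial.aeval_C, Algebra.smul_def]) z
    have h3 : ∀ i, g i z ^ m = val (φ z) (G i) := fun i => (hgH i z).symm
    simp only [h3]
    unfold Pool.Agent.W602.GT.val at h2 ⊢
    rw [map_sum] at h2
    rw [← h2]
    refine Finset.sum_congr rfl fun i _ => ?_
    rw [map_mul, MvPolynomial.aeval_C]
    rfl

/-- **Entire curves in varieties the subvarieties of which satisfy `Dependent`.** -/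
theorem main_dim' (hF : ∀ i, IsForm (F i)) {w : ℕ} (hR : AllDep F w)
    {f : ℂ → ℙ ℂ (Fin (n + 1) → ℂ)} (hf : CurveIn (Cone F) f) (hne : ¬ IsConst f) :
    ∃ t, 1 ≤ t ∧ t < w ∧ ClosureDim F f t ∧ (t = 1 → EllipticClosure f) := by
  have hne' : ∃ z w, f z ≠ f w := by
    by_contra hcon
    push Not at hcon
    exact hne hcon
  obtain ⟨L, i1, i2, v, t, hv, ht1, hiff, hell⟩ := closure_gen hF (holP_of hf.1) hf.2 hne'
  refine ⟨t, ht1, ?_, ⟨L, i1, i2, v, hv, hiff⟩, hell⟩
  by_contra hcon
  push Not at hcon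
  exact not_dep hf hiff (hR L t v hv hcon)

theorem hyp_of_all' (hF : ∀ i, IsForm (F i)) (hR : AllDep F 1) : HypNear F := by
  refine HypNear.of_hyp fun f hf => ?_
  by_contra hne
  obtain ⟨t, h1, h2, -⟩ := main_dim' hF hR hf hne
  omega

theorem hyp_of_elliptic' (hF : ∀ i, IsForm (F i)) (hR : AllDep F 2) (hN : NoElliptic F) :
    HypNear F := by
  refine HypNear.of_hyp fun f hf => ?_
  by_contra hne
  obtain ⟨t, h1, h2, -, h4⟩ := main_dim' hF hR hf hne
  exact hN.of_closure hF hf.2 (h4 (by omega))

end Pool.Agent.L7h90.FW
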