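import Pool.Agent.L7h90.FW.Crv

/-!
# Entire curves over a line

Let `G 0`, `G 1` be forms of the same degree without common zeros on `X = {F = 0}`. The nonconstant
entire curves in `X` have Zariski closures which are images of elliptic curves, and `G 0 ≠ G 1` if there
are such curves.
-/

set_option autoImplicit false
set_option maxHeartbeats 400000
set_option linter.overlappingInstances false
set_option linter.unusedSectionVars false

namespace Pool.Agent.L7h90.FW

open FF Filter IntermediateField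
open Pool.Agent.W602.GT Metric Topology
open Pool.Agent.Y221.AP
open Pool.Agent.Y221.PD
open Pool.Agent.Y221.FQ
open Pool.Agent.Y221.BD (EntireCurve)
open Pool.Agent.W603.BP (Extends sin_curve sin_point)
open Pool.Agent.W603.LV (canDeg)
open Pool.Agent.Q103.SF (S_gpc vanOn van gt_of_canDeg exists_trdeg_of_gen exists_mk)
open Pool.Agent.Q271.RC (Nonconst)
open Pool.Agent.Y190.OP
open Pool.Agent.L7h90.GL
open scoped LinearAlgebra.Projectivization

variable {M : ℕ} {ι : Type} {F : ι → MvPolynomial (Fin (M + 1)) ℂ}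
  {G : Fin 2 → MvPolynomial (Fin (M + 1)) ℂ}

/-- scaled points satisfy the equations -/
theorem val_scale {Ω : Type} [Field Ω] [Algebra ℂ Ω] (hF : ∀ i, IsForm (F i))
    {z : Fin (M + 1) → Ω} (hz : ∀ p ∈ IV F, val z p = 0) (c : Ω) {p : MvPolynomial (Fin (M + 1)) ℂ}
    (hp : p ∈ IV F) : val (fun i => c * z i) p = 0 := by
  conv_lhs => rw [← MvPolynomial.sum_homogeneousComponent p]
  unfold Pool.Agent.W602.GT.val
  rw [map_sum]
  refine Finset.sum_eq_zero fun d _ => ?_
  have h1 := val_smul (MvPolynomial.homogeneousComponent_isHomogeneous d p) c z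
  unfold Pool.Agent.W602.GT.val at h1
  rw [h1]
  have h2 := hz _ (IV_comp hF hp d)
  unfold Pool.Agent.W602.GT.val at h2
  rw [h2, mul_zero]

/-- coordinates are algebraic over the ratio of two forms without common zeros -/
theorem alg_of_base {Ω : Type} [Field Ω] [Algebra ℂ Ω] (hF : ∀ i, IsForm (F i)) (hG : NoBase F G)
    {e : ℕ} (he : 1 ≤ e) (hGe : ∀ j, (G j).IsHomogeneous e) {z : Fin (M + 1) → Ω}
    (hz : ∀ p ∈ IV F, val z p = 0) {a b : Fin 2} (hab : ∀ j, j = a ∨ j = b) (ha : val z (G a) = 1)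
    (i : Fin (M + 1)) : IsAlgebraic ℂ⟮val z (G b)⟯ (z i) := by
  obtain ⟨τ, hτ⟩ : ∃ τ, τ = val z (G b) := ⟨_, rfl⟩
  rw [← hτ]
  have hmem : ∀ j, val z (G j) ∈ ℂ⟮τ⟯ := by
    intro j
    rcases hab j with h | h
    · rw [h, ha]
      exact one_mem _
    · rw [h, ← hτ]
      exact mem_adjoin_simple_self ℂ τ
  let g : Fin 2 → ℂ⟮τ⟯ := fun j => ⟨val z (G j), hmem j⟩
  let ψ : MvPolynomial (Fin (M + 1)) ℂ ⧸ IV F →+* Ω :=
    Ideal.Quotient.lift (IV F) (MvPolynomial.aeval z : MvPolynomial (Fin (M + 1)) ℂ →ₐ[ℂ] Ω).toRingHom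
      fun p hp => hz p hp
  obtain ⟨p, hp, hp0⟩ := phi_integral hF hG he hGe (Ideal.Quotient.mk (IV F) (MvPolynomial.X i))
  have hcomp : ∀ q : MvPolynomial (Fin 2) ℂ, ψ ((phi F G).toRingHom q) =
      algebraMap ℂ⟮τ⟯ Ω (MvPolynomial.aeval g q) := by
    intro q
    have h1 : (ψ.comp (phi F G).toRingHom) = (algebraMap ℂ⟮τ⟯ Ω).comp
        (MvPolynomial.aeval g : MvPolynomial (Fin 2) ℂ →ₐ[ℂ] ℂ⟮τ⟯).toRingHom := by
      apply MvPolynomial.ringHom_ext
      · intro c
        simp only [RingHom.comp_apply, AlgHom.toRingHom_eq_coe, RingHom.coe_coe,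
          MvPolynomial.algHom_C]
        have h2 : (algebraMap ℂ (MvPolynomial (Fin (M + 1)) ℂ ⧸ IV F)) c =
            Ideal.Quotient.mk (IV F) (MvPolynomial.C c) := rfl
        rw [h2]
        show (MvPolynomial.aeval z) (MvPolynomial.C c) = _
        rw [MvPolynomial.algHom_C]
        rfl
      · intro j
        simp only [RingHom.comp_apply, AlgHom.toRingHom_eq_coe, RingHom.coe_coe,
          MvPolynomial.aeval_X]
        have h2 : (Y221.FQ.phi F G) (MvPolynomial.X j) = Ideal.Quotient.mk (IV F) (G j) :=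
          MvPolynomial.aeval_X _ j
        rw [h2]
        rfl
    exact RingHom.congr_fun h1 q
  refine IsIntegral.isAlgebraic ⟨p.map (MvPolynomial.aeval g : MvPolynomial (Fin 2) ℂ →ₐ[ℂ] ℂ⟮τ⟯).toRingHom,
    hp.map _, ?_⟩
  rw [Polynomial.eval₂_map]
  have h3 := congrArg ψ hp0
  rw [map_zero, Polynomial.hom_eval₂] at h3
  have h4 : ψ (Ideal.Quotient.mk (IV F) (MvPolynomial.X i)) = z i := by
    show (MvPolynomial.aeval z) (MvPolynomial.X i) = _
    rw [MvPolynomial.aeval_X]
  rw [h4] at h3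
  have h5 : ψ.comp (phi F G).toRingHom = (algebraMap ℂ⟮τ⟯ Ω).comp
        (MvPolynomial.aeval g : MvPolynomial (Fin 2) ℂ →ₐ[ℂ] ℂ⟮τ⟯).toRingHom := by
    ext q
    · exact hcomp _
    · exact hcomp _
  rw [h5] at h3
  exact h3

theorem div_scale {Ω : Type*} [Field Ω] {l : Ω} (hl : l ≠ 0) (a b : Ω) :
    a / b = (l⁻¹ * a) * (l⁻¹ * b)⁻¹ := by
  rw [mul_inv, inv_inv, div_eq_mul_inv]
  calc a * b⁻¹ = (l⁻¹ * l) * (a * b⁻¹) := by rw [inv_mul_cancel₀ hl, one_mul]
    _ = l⁻¹ * a * (l * b⁻¹) := by ring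


/-- **Entire curves over a line.** -/
theorem over_line (hF : ∀ i, IsForm (F i)) (hG : NoBase F G) {e : ℕ} (he : 1 ≤ e)
    (hGe : ∀ j, (G j).IsHomogeneous e) {h : ℂ → ℙ ℂ (Fin (M + 1) → ℂ)}
    (hh : HolP Set.univ fun z => Phi (h z).rep) (hX : ∀ z, (h z).rep ∈ Cone F)
    (hne : ∃ z w, h z ≠ h w) : EllipticClosure h ∧ G 0 ≠ G 1 := by
  obtain ⟨f, hf, hf0, hfφ⟩ := zero_free hh
  have hc : ∀ z, ∃ c : ℂ, c ≠ 0 ∧ f z = c • (h z).rep := fun z =>
    Phi_inj (Projectivization.rep_nonzero _) (hf0 z) (hfφ z)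
  have hev : ∀ (G : MvPolynomial (Fin (M + 1)) ℂ), IsForm G → ∀ z,
      (MvPolynomial.eval (fun i => f z i) G = 0 ↔ val (h z).rep G = 0) := by
    rintro G ⟨d, hG⟩ z
    obtain ⟨c, hc0, hcf⟩ := hc z
    have h1 : MvPolynomial.eval (fun i => f z i) G = c ^ d * val (h z).rep G := by
      have h2 : (fun i => f z i) = fun i => c * (h z).rep i := by
        funext i
        rw [hcf]
        rfl
      have h3 : ∀ u : Fin (M + 1) → ℂ, MvPolynomial.eval u G = val u G := by
        intro u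
        unfold Pool.Agent.W602.GT.val
        rw [MvPolynomial.aeval_eq_eval]
      rw [h3, h2, val_smul hG]
    rw [h1, mul_eq_zero, or_iff_right (pow_ne_zero _ hc0)]
  -- the generic point of the projective space
  let K := FractionRing (MvPolynomial (Fin (M + 1)) ℂ)
  let x : Fin (M + 1) → K := fun i => algebraMap (MvPolynomial (Fin (M + 1)) ℂ) K (MvPolynomial.X i)
  have hx : ∀ G : MvPolynomial (Fin (M + 1)) ℂ, val x G = 0 → G = 0 := by
    intro G hG0
    have h1 : val x G = algebraMap (MvPolynomial (Fin (M + 1)) ℂ) K G := by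
      unfold Pool.Agent.W602.GT.val
      have h2 := MvPolynomial.aeval_algebraMap_apply K
        (MvPolynomial.X : Fin (M + 1) → MvPolynomial (Fin (M + 1)) ℂ) G
      rw [MvPolynomial.aeval_X_left_apply] at h2
      exact h2
    rw [h1] at hG0
    exact (IsFractionRing.injective (MvPolynomial (Fin (M + 1)) ℂ) K) (by rw [hG0, map_zero])
  have hE : EntireCurve x (fun i t => f t i) := by
    refine ⟨fun i => (differentiable_pi.1 hf) i, fun t => ?_, fun G hG hGx t => ?_, ?_⟩
    · obtain ⟨i, hi⟩ := Function.ne_iff.1 (hf0 t)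
      exact ⟨i, hi⟩
    · rw [hx G hGx, map_zero]
    · by_contra hn
      push Not at hn
      obtain ⟨z, w, hzw⟩ := hne
      apply hzw
      obtain ⟨c, hc0, hcf⟩ := hc z
      obtain ⟨e, he0, hef⟩ := hc w
      obtain ⟨i, hi⟩ := Function.ne_iff.1 (hf0 w)
      have hi' : f w i ≠ 0 := hi
      have h1 : f z = (f z i / f w i) • f w := by
        funext j
        rw [Pi.smul_apply, smul_eq_mul]
        have := hn i j z w
        field_simp
        linear_combination -this
      obtain ⟨a, ha⟩ : ∃ a : ℂ, f z = a • f w := ⟨_, h1⟩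
      rw [← (h z).mk_rep, ← (h w).mk_rep, Projectivization.mk_eq_mk_iff']
      refine ⟨c⁻¹ * a * e, ?_⟩
      have h2 : (h z).rep = c⁻¹ • f z := by rw [hcf, smul_smul, inv_mul_cancel₀ hc0, one_smul]
      rw [h2, ha, hef, smul_smul, smul_smul, mul_assoc]
  obtain ⟨z, hz, j, k, hk, hjk⟩ := exists_mk (disc_of_entire hE)
  have hzf : ∀ p : MvPolynomial (Fin (M + 1)) ℂ, val z p = 0 ↔
      ∀ s, MvPolynomial.eval (fun i => f s i) p = 0 := by
    intro p
    rw [hz p]
    constructor
    · intro h1 s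
      obtain ⟨w, hw, hws⟩ := sin_point s
      have h3 := h1 w hw
      simp only [hws] at h3
      exact h3
    · intro h1 w _
      exact h1 _
  have hIV : ∀ p ∈ IV F, val z p = 0 := by
    intro p hp
    rw [hzf]
    intro s
    have h1 := hp (fun i => f s i) fun i => by
      have h2 := (hev (F i) (hF i) s).2 ((hX s).2 i)
      unfold Pool.Agent.W602.GT.val
      rw [MvPolynomial.aeval_eq_eval]
      exact h2
    unfold Pool.Agent.W602.GT.val at h1
    rw [MvPolynomial.aeval_eq_eval] at h1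
    exact h1
  -- one of the two forms does not vanish
  obtain ⟨a, ha⟩ : ∃ a, val z (G a) ≠ 0 := by
    by_contra hcon
    push Not at hcon
    obtain ⟨j, hj⟩ := hG (fun i => f 0 i) (hf0 0) fun i => by
      have h2 := (hev (F i) (hF i) 0).2 ((hX 0).2 i)
      unfold Pool.Agent.W602.GT.val
      rw [MvPolynomial.aeval_eq_eval]
      exact h2
    apply hj
    have h1 := (hzf (G j)).1 (hcon j) 0
    unfold Pool.Agent.W602.GT.val
    rw [MvPolynomial.aeval_eq_eval]
    exact h1
  obtain ⟨b, hab⟩ : ∃ b : Fin 2, ∀ j, j = a ∨ j = b := ⟨1 - a, by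
    fin_cases a <;> intro j <;> fin_cases j <;> simp⟩
  let Ω := AlgebraicClosure MK
  obtain ⟨lam, hlam⟩ := IsAlgClosed.exists_pow_nat_eq (algebraMap MK Ω (val z (G a)))
    (Nat.lt_of_lt_of_le Nat.zero_lt_one he)
  have hlam0 : lam ≠ 0 := by
    rintro rfl
    rw [zero_pow (by omega)] at hlam
    exact ha ((algebraMap MK Ω).injective (by rw [← hlam, map_zero]))
  have hvalΩ : ∀ p : MvPolynomial (Fin (M + 1)) ℂ, val (fun i => algebraMap MK Ω (z i)) p =
      algebraMap MK Ω (val z p) := by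
    intro p
    unfold Pool.Agent.W602.GT.val
    exact MvPolynomial.aeval_algebraMap_apply Ω z p
  let z' : Fin (M + 1) → Ω := fun i => lam⁻¹ * algebraMap MK Ω (z i)
  have hz' : ∀ p ∈ IV F, val z' p = 0 := fun p hp =>
    val_scale hF (z := fun i => algebraMap MK Ω (z i)) (fun q hq => by
      rw [hvalΩ, hIV q hq, map_zero]) lam⁻¹ hp
  have ha1 : val z' (G a) = 1 := by
    have h1 := val_smul (hGe a) lam⁻¹ (fun i => algebraMap MK Ω (z i))
    rw [hvalΩ, ← hlam, inv_pow, inv_mul_cancel₀ (pow_ne_zero _ hlam0)] at h1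
    exact h1
  have halg : ∀ i l, z l ≠ 0 → IsAlgebraic ℂ⟮val z' (G b)⟯ (algebraMap MK Ω (z i / z l)) := by
    intro i l hl
    have h1 : algebraMap MK Ω (z i / z l) = z' i * (z' l)⁻¹ := by
      have h2 : algebraMap MK Ω (z l) ≠ 0 := (map_ne_zero _).2 hl
      rw [map_div₀]
      exact div_scale hlam0 _ _
    rw [h1]
    exact (alg_of_base hF hG he hGe hz' hab ha1 i).mul
      (alg_of_base hF hG he hGe hz' hab ha1 l).inv
  obtain ⟨htr, L, i1, i2, i3, v, hgen, hdeg, hvan⟩ := point_one Pool.Agent.Q285.SFG.t_gpc hk hjk halg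
  constructor
  · obtain ⟨E, j1, j2, j3, τ, hE'⟩ := exists_ell hdeg
    refine ⟨E, j1, j2, fun i => τ (v i), hE', ?_, fun G hG => ?_⟩
    · obtain ⟨i, j, hj, ht⟩ := nonconst_of_trdeg hgen (by
        rw [IsFF.trdeg (k := ℂ) (K := L)]
        simp)
      refine ⟨i, j, (map_ne_zero τ).2 hj, ?_⟩
      rw [← map_div₀]
      intro halg
      exact ht ((isAlgebraic_algHom_iff τ τ.toRingHom.injective).1 halg)
    · have h2 : val (fun i => τ (v i)) G = τ (val v G) := by
        unfold Pool.Agent.W602.GT.val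
        rw [MvPolynomial.comp_aeval_apply]
      rw [h2, map_eq_zero, hvan G hG, hzf]
      exact forall_congr' fun s => hev G hG s
  · intro h01
    have h1 : G b = G a := by
      fin_cases a <;> fin_cases b <;> simp_all
    rw [h1, ha1] at htr
    exact htr isAlgebraic_one

end Pool.Agent.L7h90.FW
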