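import Pool.Agent.H159R3.NV.Final

/-!
# Entire vectors whose `m`-th powers lie in a small linear space
-/

open Pool.Agent.H159R3.NV

namespace Pool.Agent.L7h90.FW

/-- `W` contains `k` nonzero vectors with pairwise disjoint supports. -/
def Splits {q : ℕ} (W : Submodule ℂ (Fin q → ℂ)) (k : ℕ) : Prop :=
  ∃ w : Fin k → Fin q → ℂ, (∀ j, w j ∈ W ∧ w j ≠ 0) ∧
    ∀ j j', j ≠ j' → ∀ i, w j i = 0 ∨ w j' i = 0

/-- A functional on `ℂ^T` in coordinates. -/
theorem functional_eq {ι : Type*} [Fintype ι] [DecidableEq ι] (φ : (ι → ℂ) →ₗ[ℂ] ℂ) (v : ι → ℂ) :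
    φ v = ∑ i, φ (Pi.single i 1) * v i := by
  conv_lhs => rw [← Finset.univ_sum_single v, map_sum]
  refine Finset.sum_congr rfl fun i _ => ?_
  have : (Pi.single i (v i) : ι → ℂ) = v i • Pi.single i 1 := by
    rw [← Pi.single_smul]
    simp
  rw [this, map_smul, smul_eq_mul, mul_comm]

theorem power_structure {q m : ℕ} {W : Submodule ℂ (Fin q → ℂ)}
    (hm : Module.finrank ℂ W ^ 2 ≤ m) (hm1 : 1 ≤ m)
    {g : Fin q → ℂ → ℂ} (hg : ∀ i, Differentiable ℂ (g i))
    (hW : ∀ z, (fun i => g i z ^ m) ∈ W) :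
    ∃ (T : Finset (Fin q)) (cls : Fin q → Fin q) (c : Fin q → ℂ),
      T.card ≤ Module.finrank ℂ W ∧ (∀ i ∈ T, ∃ z, g i z ≠ 0) ∧
      (∀ i, cls i ∈ T ∨ c i = 0) ∧ (∀ i z, g i z = c i * g (cls i) z) ∧
      (∀ j ∈ T, cls j = j ∧ c j = 1) ∧
      (∀ j ∈ T, (fun i => if cls i = j then c i ^ m else 0) ∈ W) ∧
      ∀ z i, g i z ^ m = ∑ j ∈ T, g j z ^ m * (if cls i = j then c i ^ m else 0) := by
  classical
  set r := Module.finrank ℂ W with hr
  let P : Finset (Fin q) → Prop := fun T => (∀ i ∈ T, ∃ z, g i z ≠ 0) ∧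
    ∀ i ∈ T, ∀ j ∈ T, i ≠ j → ∀ c : ℂ, ∃ z, g i z - c * g j z ≠ 0
  obtain ⟨T, hT, hmax⟩ := Finset.exists_max_image (Finset.univ.filter P) Finset.card
    ⟨∅, by simp [P]⟩
  have hPT : P T := (Finset.mem_filter.1 hT).2
  have hcard : T.card ≤ r := by
    by_contra hlt
    push Not at hlt
    obtain ⟨T', hT', hc'⟩ := Finset.exists_subset_card_eq (show r + 1 ≤ T.card by omega)
    let ρ : W →ₗ[ℂ] (T' → ℂ) := (LinearMap.funLeft ℂ ℂ (Subtype.val : T' → Fin q)).comp W.subtype
    have hlt' : LinearMap.range ρ < ⊤ := by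
      rw [lt_top_iff_ne_top]
      intro htop
      have h1 := LinearMap.finrank_range_le ρ
      rw [htop, finrank_top, Module.finrank_fintype_fun_eq_card, Fintype.card_coe, hc'] at h1
      omega
    obtain ⟨φ, hφ0, hφ⟩ := Submodule.exists_le_ker_of_lt_top _ hlt'
    apply hφ0
    have hind := powers_independent (s := r + 1) (N := m) (by simpa using hm)
      (fun i : T' => g i) (fun i => hg i) Finset.univ (by simp [hc'])
      (fun i _ => hPT.1 i (hT' i.2))
      (fun i _ j _ hij => hPT.2 i (hT' i.2) j (hT' j.2) (fun h => hij (Subtype.ext h)))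
      (fun i => φ (Pi.single i 1)) (fun z => by
        have h1 := hφ ⟨⟨_, hW z⟩, rfl⟩
        rw [LinearMap.mem_ker, functional_eq] at h1
        exact h1)
    refine LinearMap.ext fun v => ?_
    rw [functional_eq, LinearMap.zero_apply]
    exact Finset.sum_eq_zero fun i _ => by rw [hind i (Finset.mem_univ i), zero_mul]
  have hcls : ∀ i, ∃ (j : Fin q) (c : ℂ), (j ∈ T ∨ c = 0) ∧ (∀ z, g i z = c * g j z) ∧
      (i ∈ T → j = i ∧ c = 1) := by
    intro i
    by_cases hiT : i ∈ T
    · exact ⟨i, 1, Or.inl hiT, fun z => by rw [one_mul], fun _ => ⟨rfl, rfl⟩⟩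
    by_cases hi : ∃ z, g i z ≠ 0
    · have hnP : ¬ P (insert i T) := by
        intro hP
        have h1 := hmax (insert i T) (Finset.mem_filter.2 ⟨Finset.mem_univ _, hP⟩)
        rw [Finset.card_insert_of_notMem hiT] at h1
        omega
      have h2 : ∃ j ∈ T, ∃ c : ℂ, (∀ z, g i z = c * g j z) := by
        by_contra hno
        push Not at hno
        apply hnP
        refine ⟨fun k hk => ?_, fun k hk l hl hkl c => ?_⟩
        · rcases Finset.mem_insert.1 hk with hki | hk'
          · rw [hki]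
            exact hi
          · exact hPT.1 k hk'
        · rcases Finset.mem_insert.1 hk with hki | hk'
          · rcases Finset.mem_insert.1 hl with hli | hl'
            · exact absurd (hki.trans hli.symm) hkl
            · obtain ⟨z, hz⟩ := hno l hl' c
              exact ⟨z, by rw [hki]; exact sub_ne_zero.2 hz⟩
          · rcases Finset.mem_insert.1 hl with hli | hl'
            · by_contra hall
              push Not at hall
              rw [hli] at hall
              have hc0 : c ≠ 0 := by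
                intro h0
                obtain ⟨z, hz⟩ := hPT.1 k hk'
                exact hz (by simpa [h0] using hall z)
              obtain ⟨z, hz⟩ := hno k hk' c⁻¹
              apply hz
              rw [sub_eq_zero.1 (hall z), inv_mul_cancel_left₀ hc0]
            · exact hPT.2 k hk' l hl' hkl c
      obtain ⟨j, hj, c, hc⟩ := h2
      exact ⟨j, c, Or.inl hj, hc, fun h => absurd h hiT⟩
    · push Not at hi
      exact ⟨i, 0, Or.inr rfl, fun z => by rw [zero_mul, hi z],
        fun h => absurd h hiT⟩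
  choose cls c h1 h2 h3 using hcls
  have hdec : ∀ z i, g i z ^ m = ∑ j ∈ T, g j z ^ m * (if cls i = j then c i ^ m else 0) := by
    intro z i
    by_cases hi : cls i ∈ T
    · rw [Finset.sum_eq_single (cls i)]
      · rw [if_pos rfl, h2 i z, mul_pow, mul_comm]
      · intro j _ hj
        rw [if_neg (fun h => hj h.symm), mul_zero]
      · exact fun h => absurd hi h
    · rw [Finset.sum_eq_zero]
      · have : g i z = 0 := by
          rw [h2 i z, (h1 i).resolve_left hi, zero_mul]
        rw [this, zero_pow (by omega)]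
      · intro j hj
        rw [if_neg (fun h : cls i = j => hi (by rw [h]; exact hj)), mul_zero]
  refine ⟨T, cls, c, hcard, hPT.1, h1, h2, fun j hj => h3 j hj, ?_, hdec⟩
  intro j hj
  by_contra hnot
  obtain ⟨ψ, hψ, hψW⟩ := Submodule.exists_le_ker_of_notMem hnot
  apply hψ
  refine powers_independent (s := r + 1) (N := m) (by simpa using hm) g hg T (by omega) hPT.1 hPT.2
    (fun j => ψ (fun i => if cls i = j then c i ^ m else 0)) (fun z => ?_) j hj
  have h4 := hψW (hW z)
  rw [LinearMap.mem_ker] at h4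
  have h5 : (fun i => g i z ^ m) =
      ∑ j ∈ T, g j z ^ m • (fun i => if cls i = j then c i ^ m else (0 : ℂ)) := by
    funext i
    rw [hdec z i, Finset.sum_apply]
    rfl
  rw [h5, map_sum] at h4
  refine Eq.trans (Finset.sum_congr rfl fun j _ => ?_) h4
  rw [map_smul, smul_eq_mul, mul_comm]

end Pool.Agent.L7h90.FW
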