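import Pool.Agent.L7h90.FW.Rk
import Pool.Agent.L7h90.FW.Gen
import Pool.Agent.L7h90.FW.Str
import Pool.Agent.L7h90.GL.Opn

/-!
# Varieties with linearly dependent powers
-/

set_option autoImplicit false
set_option maxHeartbeats 400000

namespace Pool.Agent.L7h90.FW

open FF Filter LinearAlgebra.Projectivization
open Pool.Agent.W602.GT Metric Topology
open Pool.Agent.Y221.FQ
open Pool.Agent.Y190.OP
open Pool.Agent.N154.TB
open Pool.Agent.N154.GG (HolMap holP_of)
open Pool.Agent.L7h90.GL
open Pool.Agent.H159R3.NV (powers_independent)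
open scoped LinearAlgebra.Projectivization

variable {n : ℕ} {ι : Type} {F : ι → MvPolynomial (Fin (n + 1)) ℂ}

/-- There are `s` forms of the same degree which are neither zero nor proportional to each other on the
variety with the generic point `y`, the `m`-th powers of which are linearly dependent on the variety for
some `m ≥ (s - 1)²`. -/
def PowerDependent {K : Type} [Field K] [Algebra ℂ K] (y : Fin (n + 1) → K) : Prop :=
  ∃ (s e m : ℕ) (G : Fin s → MvPolynomial (Fin (n + 1)) ℂ) (c : Fin s → ℂ),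
    (∀ i, (G i).IsHomogeneous e) ∧ (s - 1) ^ 2 ≤ m ∧ (∀ i, val y (G i) ≠ 0) ∧
    (∀ i j, i ≠ j → ∀ a : ℂ, val y (G i) ≠ a • val y (G j)) ∧ c ≠ 0 ∧
    ∑ i, c i • val y (G i) ^ m = 0

/-- All closed subvarieties of `X = {F = 0}` of dimension at least `w` are power dependent. -/
def AllDependent (F : ι → MvPolynomial (Fin (n + 1)) ℂ) (w : ℕ) : Prop :=
  ∀ (K : Type) [Field K] [Algebra ℂ K] (d : ℕ) (y : Fin (n + 1) → K), SubVar F K d y → w ≤ d →
    PowerDependent y

/-- The Zariski closure of the image of `f` is a closed subvariety of `X = {F = 0}` of dimension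
`t`. -/
def ClosureDim (F : ι → MvPolynomial (Fin (n + 1)) ℂ) (f : ℂ → ℙ ℂ (Fin (n + 1) → ℂ)) (t : ℕ) :
    Prop :=
  ∃ (L : Type) (_ : Field L) (_ : Algebra ℂ L) (v : Fin (n + 1) → L), SubVar F L t v ∧
    ∀ P : MvPolynomial (Fin (n + 1)) ℂ, IsForm P → (val v P = 0 ↔ ∀ z, val (f z).rep P = 0)

/-- Every holomorphic map `ℂ → X = {F = 0}` is constant, and the same is true for all `{H = 0}` near
`X`: if the `H i` are forms of the same degrees as the `F i` and their coefficients differ from those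
of the `F i` by at most `ε`, where `ε > 0` depends on `F` only. -/
def HypNear (F : ι → MvPolynomial (Fin (n + 1)) ℂ) : Prop :=
  BrodyHyp (Cone F) ∧ ∀ d : ι → ℕ, (∀ i, (F i).IsHomogeneous (d i)) → ∃ ε : ℝ, 0 < ε ∧
    ∀ H : ι → MvPolynomial (Fin (n + 1)) ℂ, (∀ i, (H i).IsHomogeneous (d i)) →
      (∀ i s, ‖(H i).coeff s - (F i).coeff s‖ ≤ ε) → BrodyHyp (Cone H)

theorem HypNear.of_hyp (h : BrodyHyp (Cone F)) : HypNear F := ⟨h, fun _ hd => open_hyp hd h⟩

/-- lifts of entire curves -/
theorem lift_curve {X : Set (Fin (n + 1) → ℂ)} {f : ℂ → ℙ ℂ (Fin (n + 1) → ℂ)} (hf : CurveIn X f) :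
    ∃ φ : ℂ → Fin (n + 1) → ℂ, Differentiable ℂ φ ∧ (∀ z, φ z ≠ 0) ∧
      ∀ z, ∃ c : ℂ, c ≠ 0 ∧ φ z = c • (f z).rep := by
  obtain ⟨φ, h1, h2, h3⟩ := zero_free (holP_of hf.1)
  exact ⟨φ, h1, h2, fun z => Phi_inj (Projectivization.rep_nonzero _) (h2 z) (h3 z)⟩

theorem val_diff {φ : ℂ → Fin (n + 1) → ℂ} (hφ : Differentiable ℂ φ)
    (P : MvPolynomial (Fin (n + 1)) ℂ) : Differentiable ℂ fun z => val (φ z) P := by
  induction P using MvPolynomial.induction_on with
  | C a =>
    have : (fun z => val (φ z) (MvPolynomial.C a : MvPolynomial (Fin (n + 1)) ℂ)) = fun _ => a := by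
      funext z
      unfold Pool.Agent.W602.GT.val
      rw [MvPolynomial.aeval_C]
      rfl
    rw [this]
    exact differentiable_const a
  | add p q hp hq =>
    have : (fun z => val (φ z) (p + q)) = fun z => val (φ z) p + val (φ z) q := by
      funext z
      unfold Pool.Agent.W602.GT.val
      rw [map_add]
    rw [this]
    exact hp.add hq
  | mul_X p i hp =>
    have : (fun z => val (φ z) (p * MvPolynomial.X i)) = fun z => val (φ z) p * φ z i := by
      funext z
      unfold Pool.Agent.W602.GT.val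
      rw [map_mul, MvPolynomial.aeval_X]
    rw [this]
    exact hp.mul (differentiable_pi.1 hφ i)

/-- **The Zariski closure of an entire curve is not power dependent.** -/
theorem not_dependent {f : ℂ → ℙ ℂ (Fin (n + 1) → ℂ)} {X : Set (Fin (n + 1) → ℂ)}
    (hf : CurveIn X f) {L : Type} [Field L] [Algebra ℂ L] {v : Fin (n + 1) → L}
    (hv : ∀ P : MvPolynomial (Fin (n + 1)) ℂ, IsForm P → (val v P = 0 ↔ ∀ z, val (f z).rep P = 0)) :
    ¬ PowerDependent v := by
  rintro ⟨s, e, m, G, c, hGe, hm, hne, hprop, hc0, hsum⟩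
  obtain ⟨φ, hφ, hφ0, hφc⟩ := lift_curve hf
  have hiff : ∀ P : MvPolynomial (Fin (n + 1)) ℂ, IsForm P →
      (val v P = 0 ↔ ∀ z, val (φ z) P = 0) := by
    intro P hP
    rw [hv P hP]
    obtain ⟨d, hd⟩ := hP
    refine forall_congr' fun z => ?_
    obtain ⟨a, ha, haz⟩ := hφc z
    have h1 : val (φ z) P = a ^ d * val (f z).rep P := by
      rw [← val_smul hd a, haz]
      rfl
    rw [h1, mul_eq_zero, or_iff_right (pow_ne_zero _ ha)]
  apply hc0
  funext i
  refine powers_independent (s := s) (N := m) hm (fun i z => val (φ z) (G i))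
    (fun i => val_diff hφ _) Finset.univ (by simp) (fun i _ => ?_) (fun i _ j _ hij a => ?_) c
    (fun z => ?_) i (Finset.mem_univ i)
  · by_contra hcon
    push Not at hcon
    exact hne i ((hiff _ ⟨e, hGe i⟩).2 hcon)
  · by_contra hcon
    push Not at hcon
    apply hprop i j hij a
    have h1 : IsForm (G i - MvPolynomial.C a * G j) :=
      ⟨e, (hGe i).sub (by simpa using (MvPolynomial.isHomogeneous_C _ a).mul (hGe j))⟩
    have h2 := (hiff _ h1).2 (fun z => by
      have h9 := hcon z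
      unfold Pool.Agent.W602.GT.val at h9 ⊢
      rw [map_sub, map_mul, MvPolynomial.aeval_C]
      exact h9)
    unfold Pool.Agent.W602.GT.val at h2 ⊢
    rw [map_sub, map_mul, MvPolynomial.aeval_C, sub_eq_zero] at h2
    rw [h2, Algebra.smul_def]
  · have h1 : IsForm (∑ i, MvPolynomial.C (c i) * G i ^ m) := by
      refine ⟨e * m, MvPolynomial.IsHomogeneous.sum _ _ _ fun i _ => ?_⟩
      simpa using (MvPolynomial.isHomogeneous_C _ (c i)).mul ((hGe i).pow m)
    have h2 := (hiff _ h1).1 (by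
      unfold Pool.Agent.W602.GT.val at hsum ⊢
      rw [map_sum, ← hsum]
      refine Finset.sum_congr rfl fun i _ => ?_
      rw [map_mul, map_pow, MvPolynomial.aeval_C, Algebra.smul_def]) z
    unfold Pool.Agent.W602.GT.val at h2 ⊢
    rw [map_sum] at h2
    rw [← h2]
    refine Finset.sum_congr rfl fun i _ => ?_
    rw [map_mul, map_pow, MvPolynomial.aeval_C]
    rfl

/-- **Entire curves in varieties with power dependent subvarieties.** -/
theorem main_dim (hF : ∀ i, IsForm (F i)) {w : ℕ} (hR : AllDependent F w)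
    {f : ℂ → ℙ ℂ (Fin (n + 1) → ℂ)} (hf : CurveIn (Cone F) f) (hne : ¬ IsConst f) :
    ∃ t, 1 ≤ t ∧ t < w ∧ ClosureDim F f t ∧ (t = 1 → EllipticClosure f) := by
  have hne' : ∃ z w, f z ≠ f w := by
    by_contra hcon
    push Not at hcon
    exact hne hcon
  obtain ⟨L, i1, i2, v, t, hv, ht1, hiff, hell⟩ := closure_gen hF (holP_of hf.1) hf.2 hne'
  refine ⟨t, ht1, ?_, ⟨L, i1, i2, v, hv, hiff⟩, hell⟩
  by_contra hcon
  push Not at hcon
  exact not_dependent hf hiff (hR L t v hv hcon)

theorem hyp_of_all (hF : ∀ i, IsForm (F i)) (hR : AllDependent F 1) : HypNear F := by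
  refine HypNear.of_hyp fun f hf => ?_
  by_contra hne
  obtain ⟨t, h1, h2, -⟩ := main_dim hF hR hf hne
  omega

theorem hyp_of_elliptic (hF : ∀ i, IsForm (F i)) (hR : AllDependent F 2) (hN : NoElliptic F) :
    HypNear F := by
  refine HypNear.of_hyp fun f hf => ?_
  by_contra hne
  obtain ⟨t, h1, h2, -, h4⟩ := main_dim hF hR hf hne
  exact hN.of_closure hF hf.2 (h4 (by omega))

end Pool.Agent.L7h90.FW
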