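import Pool.Agent.L7h90.FW.Ovl

/-!
# The rank of forms on subvarieties

Forms of the same degree without common zeros on `X` span a space of dimension at least `w + 1` on each
closed subvariety of `X` of dimension `w`.
-/

set_option autoImplicit false
set_option maxHeartbeats 400000
set_option linter.overlappingInstances false
set_option linter.unusedSectionVars false

namespace Pool.Agent.L7h90.FW

open FF IntermediateField
open Pool.Agent.W602.GT
open Pool.Agent.Y221.FQ

variable {n : ℕ} {ι : Type} {F : ι → MvPolynomial (Fin (n + 1)) ℂ}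

/-- On each closed subvariety of `X = {F = 0}` of dimension at least `w`, the forms `G i` span (over
`ℂ`) a space of dimension at least `k`. -/
def RankAtLeast {q : ℕ} (F : ι → MvPolynomial (Fin (n + 1)) ℂ)
    (G : Fin q → MvPolynomial (Fin (n + 1)) ℂ) (w k : ℕ) : Prop :=
  ∀ (K : Type) [Field K] [Algebra ℂ K] (d : ℕ) (y : Fin (n + 1) → K), SubVar F K d y → w ≤ d →
    k ≤ Module.finrank ℂ (Submodule.span ℂ (Set.range fun i => val y (G i)))

/-- points over extension fields satisfy the equations of the ideal -/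
theorem val_IV {Ω : Type} [Field Ω] [Algebra ℂ Ω] {y : Fin (n + 1) → Ω}
    (hy : ∀ i, val y (F i) = 0) {p : MvPolynomial (Fin (n + 1)) ℂ} (hp : p ∈ IV F) :
    val y p = 0 := by
  have h1 := MvPolynomial.vanishingIdeal_zeroLocus_eq_radical (K := ℂ) (Ideal.span (Set.range F))
  have h2 : p ∈ MvPolynomial.vanishingIdeal ℂ (MvPolynomial.zeroLocus ℂ (Ideal.span (Set.range F))) := by
    intro x hx
    exact hp x fun e => hx _ (Ideal.subset_span ⟨e, rfl⟩)
  rw [h1] at h2
  obtain ⟨D, hD⟩ := h2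
  have h3 : Ideal.span (Set.range F) ≤
      RingHom.ker (MvPolynomial.aeval y : MvPolynomial (Fin (n + 1)) ℂ →ₐ[ℂ] Ω).toRingHom := by
    rw [Ideal.span_le]
    rintro _ ⟨e, rfl⟩
    exact hy e
  have h4 : (MvPolynomial.aeval y : MvPolynomial (Fin (n + 1)) ℂ →ₐ[ℂ] Ω) (p ^ D) = 0 := h3 hD
  rw [map_pow] at h4
  exact eq_zero_of_pow_eq_zero h4

/-- coordinates are algebraic over the values of forms without common zeros -/
theorem alg_of_vals {M : ℕ} {G : Fin (M + 1) → MvPolynomial (Fin (n + 1)) ℂ} {Ω : Type} [Field Ω]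
    [Algebra ℂ Ω] (hF : ∀ i, IsForm (F i)) (hG : NoBase F G)
    {e : ℕ} (he : 1 ≤ e) (hGe : ∀ j, (G j).IsHomogeneous e) {z : Fin (n + 1) → Ω}
    (hz : ∀ p ∈ IV F, val z p = 0) {B : Type} [Field B] [Algebra ℂ B] [Algebra B Ω]
    [IsScalarTower ℂ B Ω] (g : Fin (M + 1) → B) (hg : ∀ j, algebraMap B Ω (g j) = val z (G j))
    (i : Fin (n + 1)) : IsAlgebraic B (z i) := by
  let ψ : MvPolynomial (Fin (n + 1)) ℂ ⧸ IV F →+* Ω :=
    Ideal.Quotient.lift (IV F) (MvPolynomial.aeval z : MvPolynomial (Fin (n + 1)) ℂ →ₐ[ℂ] Ω).toRingHom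
      fun p hp => hz p hp
  obtain ⟨p, hp, hp0⟩ := phi_integral hF hG he hGe (Ideal.Quotient.mk (IV F) (MvPolynomial.X i))
  have hcomp : ψ.comp (phi F G).toRingHom = (algebraMap B Ω).comp
        (MvPolynomial.aeval g : MvPolynomial (Fin (M + 1)) ℂ →ₐ[ℂ] B).toRingHom := by
    apply MvPolynomial.ringHom_ext
    · intro c
      simp only [RingHom.comp_apply, AlgHom.toRingHom_eq_coe, RingHom.coe_coe,
        MvPolynomial.algHom_C]
      have h2 : (algebraMap ℂ (MvPolynomial (Fin (n + 1)) ℂ ⧸ IV F)) c =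
          Ideal.Quotient.mk (IV F) (MvPolynomial.C c) := rfl
      rw [h2]
      show (MvPolynomial.aeval z) (MvPolynomial.C c) = _
      rw [MvPolynomial.algHom_C]
      exact IsScalarTower.algebraMap_apply ℂ B Ω c
    · intro j
      simp only [RingHom.comp_apply, AlgHom.toRingHom_eq_coe, RingHom.coe_coe,
        MvPolynomial.aeval_X]
      have h2 : (phi F G) (MvPolynomial.X j) = Ideal.Quotient.mk (IV F) (G j) :=
        MvPolynomial.aeval_X _ j
      rw [h2, hg]
      rfl
  refine IsIntegral.isAlgebraic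
    ⟨p.map (MvPolynomial.aeval g : MvPolynomial (Fin (M + 1)) ℂ →ₐ[ℂ] B).toRingHom, hp.map _, ?_⟩
  rw [Polynomial.eval₂_map]
  have h3 := congrArg ψ hp0
  rw [map_zero, Polynomial.hom_eval₂] at h3
  have h4 : ψ (Ideal.Quotient.mk (IV F) (MvPolynomial.X i)) = z i := by
    show (MvPolynomial.aeval z) (MvPolynomial.X i) = _
    rw [MvPolynomial.aeval_X]
  rw [h4, hcomp] at h3
  exact h3

/-- **Forms without common zeros have large rank.** -/
theorem rank_of_noBase {q : ℕ} {G : Fin q → MvPolynomial (Fin (n + 1)) ℂ}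
    (hF : ∀ i, IsForm (F i)) {e : ℕ} (he : 1 ≤ e) (hGe : ∀ j, (G j).IsHomogeneous e)
    (hG : ∀ x ∈ Cone F, ∃ i, val x (G i) ≠ 0) (w : ℕ) : RankAtLeast F G w (w + 1) := by
  intro K _ _ d y hy hwd
  let G' : Fin (q + 1) → MvPolynomial (Fin (n + 1)) ℂ := Fin.cons 0 G
  have hnb : NoBase F G' := by
    intro x hx hxF
    obtain ⟨i, hi⟩ := hG x ⟨hx, hxF⟩
    exact ⟨i.succ, by simpa [G'] using hi⟩
  have hGe' : ∀ j, (G' j).IsHomogeneous e := by
    intro j
    refine Fin.cases ?_ (fun i => ?_) j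
    · exact MvPolynomial.isHomogeneous_zero _ _ _
    · simpa [G'] using hGe i
  set R := Submodule.span ℂ (Set.range fun i => val y (G i)) with hR
  have hfin : FiniteDimensional ℂ R := FiniteDimensional.span_of_finite ℂ (Set.finite_range _)
  have hR' : ∀ j, val y (G' j) ∈ R := by
    intro j
    refine Fin.cases ?_ (fun i => ?_) j
    · have : val y (G' 0) = 0 := by
        show val y 0 = 0
        exact map_zero _
      rw [this]
      exact R.zero_mem
    · exact Submodule.subset_span ⟨i, rfl⟩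
  -- one of the forms does not vanish
  obtain ⟨a, ha⟩ : ∃ a, val y (G' a) ≠ 0 := by
    by_contra hcon
    push Not at hcon
    apply hy.ne
    funext i
    obtain ⟨D, -, hD⟩ := pow_mem hF hnb i
    have h3 : IV F ⊔ Ideal.span (Set.range G') ≤
        RingHom.ker (MvPolynomial.aeval y : MvPolynomial (Fin (n + 1)) ℂ →ₐ[ℂ] K).toRingHom := by
      refine sup_le (fun p hp => val_IV hy.mem hp) ?_
      rw [Ideal.span_le]
      rintro _ ⟨j, rfl⟩
      exact hcon j
    have h4 : (MvPolynomial.aeval y : MvPolynomial (Fin (n + 1)) ℂ →ₐ[ℂ] K)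
      ((MvPolynomial.X i : MvPolynomial (Fin (n + 1)) ℂ) ^ D) = 0 := h3 hD
    rw [map_pow, MvPolynomial.aeval_X] at h4
    exact eq_zero_of_pow_eq_zero h4
  -- generators
  let ga : R := ⟨val y (G' a), hR' a⟩
  have hga : ga ≠ 0 := fun h => ha (congrArg Subtype.val h)
  let S0 : Submodule ℂ R := Submodule.span ℂ {ga}
  have hS0 : Module.finrank ℂ S0 = 1 := finrank_span_singleton hga
  have hq := Submodule.finrank_quotient_add_finrank S0
  let b := Module.finBasis ℂ (R ⧸ S0)
  choose u hu using fun j => Submodule.mkQ_surjective S0 (b j)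
  let s : Set K := Set.range fun j => (u j : K) / val y (G' a)
  let B := IntermediateField.adjoin ℂ s
  have hB : ∀ v : R, (v : K) / val y (G' a) ∈ B := by
    intro v
    have h1 : S0.mkQ (v - ∑ j, b.repr (S0.mkQ v) j • u j) = 0 := by
      rw [map_sub, map_sum]
      simp only [map_smul, hu]
      rw [b.sum_repr, sub_self]
    rw [Submodule.mkQ_apply, Submodule.Quotient.mk_eq_zero] at h1
    obtain ⟨c, hc⟩ := Submodule.mem_span_singleton.1 h1
    have h2 : (v : K) = c • val y (G' a) + ∑ j, b.repr (S0.mkQ v) j • (u j : K) := by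
      have h3 := congrArg Subtype.val hc
      have h4 : ((v - ∑ j, b.repr (S0.mkQ v) j • u j : R) : K) =
          (v : K) - ∑ j, b.repr (S0.mkQ v) j • (u j : K) := by
        rw [AddSubgroupClass.coe_sub, AddSubmonoidClass.coe_finsetSum]
        rfl
      rw [h4] at h3
      have h5 : ((c • ga : R) : K) = c • val y (G' a) := rfl
      rw [h5] at h3
      rw [h3, sub_add_cancel]
    rw [h2, add_div, Finset.sum_div]
    refine B.add_mem ?_ (B.sum_mem fun j _ => ?_)
    · rw [Algebra.smul_def, mul_div_assoc, div_self ha, mul_one]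
      exact B.algebraMap_mem c
    · rw [Algebra.smul_def, mul_div_assoc]
      exact B.mul_mem (B.algebraMap_mem _) (IntermediateField.subset_adjoin _ _ ⟨j, rfl⟩)
  -- the algebraic closure
  let Ω := AlgebraicClosure K
  obtain ⟨lam, hlam⟩ := IsAlgClosed.exists_pow_nat_eq (algebraMap K Ω (val y (G' a)))
    (Nat.lt_of_lt_of_le Nat.zero_lt_one he)
  have hlam0 : lam ≠ 0 := by
    rintro rfl
    rw [zero_pow (by omega)] at hlam
    exact ha ((algebraMap K Ω).injective (by rw [← hlam, map_zero]))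
  have hvalΩ : ∀ p : MvPolynomial (Fin (n + 1)) ℂ, val (fun i => algebraMap K Ω (y i)) p =
      algebraMap K Ω (val y p) := by
    intro p
    unfold Pool.Agent.W602.GT.val
    exact MvPolynomial.aeval_algebraMap_apply Ω y p
  let z' : Fin (n + 1) → Ω := fun i => lam⁻¹ * algebraMap K Ω (y i)
  have hz' : ∀ p ∈ IV F, val z' p = 0 := fun p hp =>
    val_scale hF (z := fun i => algebraMap K Ω (y i)) (fun q hq => by
      rw [hvalΩ, val_IV hy.mem hq, map_zero]) lam⁻¹ hp
  have hg : ∀ j, algebraMap B Ω ⟨val y (G' j) / val y (G' a), hB ⟨_, hR' j⟩⟩ = val z' (G' j) := by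
    intro j
    have h1 := val_smul (hGe' j) lam⁻¹ (fun i => algebraMap K Ω (y i))
    rw [hvalΩ] at h1
    have h2 : algebraMap B Ω ⟨val y (G' j) / val y (G' a), hB ⟨_, hR' j⟩⟩ =
        algebraMap K Ω (val y (G' j) / val y (G' a)) := rfl
    rw [h2, map_div₀, ← hlam]
    refine Eq.trans ?_ h1.symm
    rw [inv_pow, div_eq_mul_inv, mul_comm]
  have halg : ∀ i, IsAlgebraic B (z' i) := fun i => alg_of_vals hF hnb he hGe' hz'
    (fun j => (⟨val y (G' j) / val y (G' a), hB ⟨_, hR' j⟩⟩ : B)) hg i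
  have hratio : ∀ i l, y l ≠ 0 → IsAlgebraic B (y i / y l) := by
    intro i l hl
    have h1 : algebraMap K Ω (y i / y l) = z' i * (z' l)⁻¹ := by
      rw [map_div₀]
      exact div_scale hlam0 _ _
    have h2 : IsAlgebraic B (algebraMap K Ω (y i / y l)) := by
      rw [h1]
      exact (halg i).mul (halg l).inv
    exact (isAlgebraic_algebraMap_iff (algebraMap K Ω).injective).1 h2
  have hBK : Algebra.IsAlgebraic B K := by
    have h1 : coords ℂ y ≤ (algebraicClosure B K).restrictScalars ℂ := by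
      show IntermediateField.adjoin ℂ _ ≤ _
      rw [IntermediateField.adjoin_le_iff]
      rintro _ ⟨i, l, hl, rfl⟩
      exact (mem_algebraicClosure_iff).2 (hratio i l hl)
    refine ⟨fun x => ?_⟩
    have h2 : x ∈ coords ℂ y := by
      rw [hy.gen]
      exact IntermediateField.mem_top
    exact (mem_algebraicClosure_iff).1 (h1 h2)
  have h1 := Pool.Agent.W602.GT.alg_adjoin hBK
  have h2 := Algebra.IsAlgebraic.trdeg_le_cardinalMk (R := ℂ) (A := K) s
  have h3 : Cardinal.mk s ≤ (Module.finrank ℂ (R ⧸ S0) : ℕ) := by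
    have := Cardinal.mk_range_le (f := fun j => (u j : K) / val y (G' a))
    simpa using this
  rw [hy.dim] at h2
  have h4 : d ≤ Module.finrank ℂ (R ⧸ S0) := by
    exact_mod_cast h2.trans h3
  omega

end Pool.Agent.L7h90.FW
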